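import Pool.Agent.N686.RS.Path2
import Pool.Agent.N686.RR.Branch
set_option autoImplicit false

/-!
The branches and the lifts.
-/

namespace Pool.Agent.N686.RS

open Set Filter Topology Complex MeasureTheory Polynomial

open Pool.Agent.N76.EC (th Wp Zp Cv exists_lift lift_unique Wp_of_sin contDiff_Wp Wp_add_one)

open Pool.Agent.Y775.CC (psi psi_self psi_ne)

open Pool.Agent.N686.RR (Uni exists_inv mem_D sc_D cl cl_cont cl_mem cl_eq cl_zero cl_one qp)

open scoped Real ComplexConjugate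

/-- the condition on the critical values -/
def CvR (p q : ℝ) (G : ℂ[X]) (κ : ℝ) : Prop :=
  ∀ x : ℂ, (derivative G).eval x = 0 → ∃ v : ℝ, G.eval x = v ∧
    (p * (v - κ) ≤ -1 ∨ 1 ≤ q * (v - κ)) ∧ v ≠ 2 ∧ v ≠ -2

variable {p q : ℝ} {G : ℂ[X]} {κ : ℝ}

theorem not_Cv (Pq : Par p q) (hG : CvR p q G κ) {w : ℂ} (hw : ‖w‖ < 1) : (κ : ℂ) + ff p q w ∉ Cv G := by
  rintro ⟨x, hx, h⟩
  obtain ⟨v, hv, h1, -⟩ := hG x hx
  have h2 : ff p q w = ((v - κ : ℝ) : ℂ) := by
    simp only at h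
    rw [hv] at h
    push_cast
    linear_combination -h
  have h3 := ff_real Pq hw h2
  rcases h1 with h1 | h1 <;> linarith

theorem not_Cv2 (hG : CvR p q G κ) : (2 : ℂ) ∉ Cv G := by
  rintro ⟨x, hx, h⟩
  obtain ⟨v, hv, -, h2, -⟩ := hG x hx
  simp only at h
  rw [hv] at h
  exact h2 (by exact_mod_cast h)

theorem not_Cv2' (hG : CvR p q G κ) : (-2 : ℂ) ∉ Cv G := by
  rintro ⟨x, hx, h⟩
  obtain ⟨v, hv, -, -, h2⟩ := hG x hx
  simp only at h
  rw [hv] at h
  exact h2 (by exact_mod_cast h)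

theorem ff_cont : ContinuousOn (ff p q) {w : ℂ | DD p q w ≠ 0} := by
  unfold ff
  exact continuousOn_id.div DD_cont.continuousOn fun _ h => h

theorem ff_zero : ff p q 0 = 0 := by simp [ff]


theorem cont_f (Pq : Par p q) : Continuous fun w : ((Metric.ball (0 : ℂ) 1) : Set ℂ) => (κ : ℂ) + ff p q w :=
  continuous_const.add (ff_cont.comp_continuous continuous_subtype_val fun w =>
    DD_ne' Pq (mem_D.1 w.2))

/-- the branch at `b` -/
theorem exists_branch (Pq : Par p q) (hG : CvR p q G κ) {b : ℂ} (hb : G.eval b = κ) :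
    ∃ Φ : ℂ → ℂ, ContinuousOn Φ (Metric.ball (0 : ℂ) 1) ∧ Φ 0 = b ∧ ∀ w ∈ (Metric.ball (0 : ℂ) 1), G.eval (Φ w) = κ + ff p q w := by
  classical
  obtain ⟨i1, i2⟩ := sc_D
  obtain ⟨F, hFc, hF0, hF⟩ := exists_lift (A := ((Metric.ball (0 : ℂ) 1) : Set ℂ)) (G := G) (cont_f Pq)
    (fun w => not_Cv Pq hG (mem_D.1 w.2)) ⟨0, Metric.mem_ball_self one_pos⟩ (x₀ := b) (by
      rw [hb]
      show (κ : ℂ) = κ + ff p q 0
      rw [ff_zero, add_zero])
  refine ⟨fun w => if h : w ∈ (Metric.ball (0 : ℂ) 1) then F ⟨w, h⟩ else 0, ?_, ?_, ?_⟩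
  · rw [continuousOn_iff_continuous_domRestrict]
    have e : ((Metric.ball (0 : ℂ) 1) : Set ℂ).domRestrict (fun w => if h : w ∈ (Metric.ball (0 : ℂ) 1) then F ⟨w, h⟩ else 0) = F := by
      funext w
      simp only [domRestrict_apply, dif_pos w.2]
    rw [e]
    exact hFc
  · simp only [dif_pos (Metric.mem_ball_self one_pos : (0 : ℂ) ∈ (Metric.ball (0 : ℂ) 1))]
    exact hF0
  · intro w hw
    simp only [dif_pos hw]
    exact hF ⟨w, hw⟩

theorem branch_unique (Pq : Par p q) (hG : CvR p q G κ) {Φ Φ' : ℂ → ℂ} (hc : ContinuousOn Φ (Metric.ball (0 : ℂ) 1)) (hc' : ContinuousOn Φ' (Metric.ball (0 : ℂ) 1))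
    (h : ∀ w ∈ (Metric.ball (0 : ℂ) 1), G.eval (Φ w) = κ + ff p q w) (h' : ∀ w ∈ (Metric.ball (0 : ℂ) 1), G.eval (Φ' w) = κ + ff p q w) {u : ℂ}
    (hu : u ∈ (Metric.ball (0 : ℂ) 1)) (he : Φ u = Φ' u) : ∀ w ∈ (Metric.ball (0 : ℂ) 1), Φ w = Φ' w := by
  obtain ⟨i1, i2⟩ := sc_D
  have h1 := lift_unique (A := ((Metric.ball (0 : ℂ) 1) : Set ℂ)) (G := G) (cont_f Pq) (fun w => not_Cv Pq hG (mem_D.1 w.2))
    (F := fun w => Φ w) (F' := fun w => Φ' w)
    (continuousOn_iff_continuous_domRestrict.1 hc) (continuousOn_iff_continuous_domRestrict.1 hc')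
    (fun w => h w w.2) (fun w => h' w w.2) (a₀ := ⟨u, hu⟩) he
  exact fun w hw => congrFun h1 ⟨w, hw⟩

/-- the branches -/
structure Br (p q : ℝ) (G : ℂ[X]) (κ : ℝ) {n : ℕ} (b : Fin n → ℂ) (Φ : Fin n → ℂ → ℂ) : Prop where
  par : Par p q
  cv : CvR p q G κ
  inj : Function.Injective b
  cont : ∀ k, ContinuousOn (Φ k) (Metric.ball (0 : ℂ) 1)
  zero : ∀ k, Φ k 0 = b k
  ev : ∀ k, ∀ w ∈ (Metric.ball (0 : ℂ) 1), G.eval (Φ k w) = κ + ff p q w

theorem exists_Br (Pq : Par p q) (hG : CvR p q G κ) {n : ℕ} {b : Fin n → ℂ} (hinj : Function.Injective b)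
    (hb : ∀ k, G.eval (b k) = κ) : ∃ Φ, Br p q G κ b Φ := by
  choose Φ h1 h2 h3 using fun k => exists_branch Pq hG (hb k)
  exact ⟨Φ, Pq, hG, hinj, h1, h2, h3⟩

namespace Br

variable {n : ℕ} {b : Fin n → ℂ} {Φ : Fin n → ℂ → ℂ} (B : Br p q G κ b Φ)

include B

theorem uni : Uni (Metric.ball (0 : ℂ) 1) Φ where
  isOpen := Metric.isOpen_ball
  convex := convex_ball 0 1
  zero := Metric.mem_ball_self one_pos
  hasDeriv := by
    intro k w hw
    have hw' := mem_D.1 hw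
    have hd : (derivative G).eval (Φ k w) ≠ 0 := fun h => not_Cv B.par B.cv hw' ⟨_, h, B.ev k w hw⟩
    obtain ⟨g, -, hg, hg'⟩ := exists_inv hd
    have hc : ContinuousAt (Φ k) w := (B.cont k).continuousAt (Metric.isOpen_ball.mem_nhds hw)
    have h3 : Φ k =ᶠ[𝓝 w] fun u => g (κ + ff p q u) := by
      filter_upwards [hc.eventually hg, Metric.isOpen_ball.mem_nhds hw] with u hu huD
      rw [← B.ev k u huD, hu]
    rw [B.ev k w hw] at hg'
    have h4 : HasDerivAt (fun u => (κ : ℂ) + ff p q u) ((((p + q) / 4 : ℝ) : ℂ) * (1 - w ^ 2) / DD p q w ^ 2) w :=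
      (ff_diff B.par hw').const_add _
    have h5 : HasDerivAt (fun u => g (κ + ff p q u))
        (((derivative G).eval (Φ k w))⁻¹ * ((((p + q) / 4 : ℝ) : ℂ) * (1 - w ^ 2) / DD p q w ^ 2)) w :=
      HasDerivAt.comp w hg' h4
    exact ⟨_, mul_ne_zero (inv_ne_zero hd) (ff_deriv_ne B.par hw'), h5.congr_of_eventuallyEq h3⟩
  eq_of_eq' := by
    intro i j u hu v hv h
    have h1 : (κ : ℂ) + ff p q u = κ + ff p q v := by rw [← B.ev i u hu, ← B.ev j v hv, h]
    have h2 : u = v := ff_inj B.par (mem_D.1 hu) (mem_D.1 hv) (add_left_cancel h1)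
    subst h2
    refine ⟨B.inj ?_, rfl⟩
    rw [← B.zero i, ← B.zero j]
    exact branch_unique B.par B.cv (B.cont i) (B.cont j) (B.ev i) (B.ev j) hu h 0
      (Metric.mem_ball_self one_pos)

end Br

/-! ### The lifts over the square -/

section

variable {η : ℝ} {w l : ℝ → ℂ} (P : Pth p q κ η w l)

include P

theorem qp_cont : Continuous (qp w) :=
  (Complex.continuous_ofReal.comp (cl_cont.comp continuous_fst)).mul (P.cont.comp continuous_snd)

theorem qp_norm (x : ℝ × ℝ) : ‖qp w x‖ = cl x.1 * ‖w x.2‖ := by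
  unfold qp
  rw [norm_mul, Complex.norm_real, Real.norm_eq_abs, abs_of_nonneg (cl_mem _).1]

theorem qp_cases (x : ℝ × ℝ) : ‖qp w x‖ < 1 ∨
    (cl x.1 = 1 ∧ Real.sin (2 * π * x.2) = 0) := by
  by_cases h : Real.sin (2 * π * x.2) = 0
  · by_cases h1 : cl x.1 = 1
    · exact Or.inr ⟨h1, h⟩
    · left
      rw [qp_norm P]
      have h2 : cl x.1 < 1 := lt_of_le_of_ne (cl_mem _).2 h1
      have h3 := P.le x.2
      have h4 := (cl_mem x.1).1
      nlinarith [norm_nonneg (w x.2)]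
  · left
    rw [qp_norm P]
    have h3 := P.lt x.2 h
    have h4 := cl_mem x.1
    nlinarith [norm_nonneg (w x.2)]

theorem qp_ne (x : ℝ × ℝ) : DD p q (qp w x) ≠ 0 := by
  rcases qp_cases P x with h | ⟨h, -⟩
  · exact DD_ne' P.par h
  · unfold qp
    rw [h, Complex.ofReal_one, one_mul]
    exact P.ne _

theorem qp_Cv (hG : CvR p q G κ) (x : ℝ × ℝ) : (κ : ℂ) + ff p q (qp w x) ∉ Cv G := by
  rcases qp_cases P x with h | ⟨h, h'⟩
  · exact not_Cv P.par hG h
  · unfold qp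
    rw [h, Complex.ofReal_one, one_mul, P.eq, add_sub_cancel]
    rcases Wp_of_sin (η := η) h' with h1 | h1
    · rw [h1]
      exact not_Cv2 hG
    · rw [h1]
      exact not_Cv2' hG

theorem qp_fcont : Continuous fun x => (κ : ℂ) + ff p q (qp w x) :=
  continuous_const.add (ff_cont.comp_continuous (qp_cont P) fun x => qp_ne P x)

omit P in
theorem qp_zero (t : ℝ) : qp w (0, t) = 0 := by
  unfold qp
  simp [cl_zero]

variable {n : ℕ} {b : Fin n → ℂ} {Φ : Fin n → ℂ → ℂ} (B : Br p q G κ b Φ)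

include B

/-- the lift over the square -/
theorem exists_F (k : Fin n) : ∃ F : ℝ × ℝ → ℂ, Continuous F ∧ (∀ x, G.eval (F x) = κ + ff p q (qp w x)) ∧
    (∀ x : ℝ × ℝ, cl x.1 = 0 → F x = b k) ∧
    ∀ R t : ℝ, 0 ≤ R → R < 1 → F (R, t) = Φ k (R * w t) := by
  suffices hs : ∃ F : ℝ × ℝ → ℂ, Continuous F ∧ (∀ x, G.eval (F x) = κ + ff p q (qp w x)) ∧
      (∀ t : ℝ, F (0, t) = b k) ∧ ∀ R t : ℝ, 0 ≤ R → R < 1 → F (R, t) = Φ k (R * w t) by
    obtain ⟨F, h1, h2, h3, h4⟩ := hs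
    refine ⟨fun x => F (cl x.1, x.2), h1.comp ((cl_cont.comp continuous_fst).prodMk continuous_snd),
      fun x => ?_, fun x hx => ?_, fun R t h5 h6 => ?_⟩
    · rw [h2]
      unfold qp
      simp only
      rw [cl_eq (cl_mem _).1 (cl_mem _).2]
    · simp only
      rw [hx, h3]
    · simp only
      rw [cl_eq h5 h6.le, h4 R t h5 h6]
  obtain ⟨F, hFc, hF0, hF⟩ := exists_lift (A := ℝ × ℝ) (G := G) (qp_fcont P) (qp_Cv P B.cv)
    ((0, 0) : ℝ × ℝ) (x₀ := b k) (by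
      have := B.ev k 0 (Metric.mem_ball_self one_pos)
      rw [B.zero] at this
      simp only [qp_zero, this])
  have h0 : ∀ t : ℝ, F (0, t) = b k := by
    have h1 := lift_unique (A := ℝ) (G := G) (f := fun t => (κ : ℂ) + ff p q (qp w (0, t)))
      ((qp_fcont P).comp (by fun_prop)) (fun t => qp_Cv P B.cv _)
      (F := fun t => F (0, t)) (F' := fun _ => b k) (hFc.comp (by fun_prop)) continuous_const
      (fun t => hF _) (fun t => by
        have := B.ev k 0 (Metric.mem_ball_self one_pos)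
        rw [B.zero] at this
        simp only [qp_zero, this]) (a₀ := 0) hF0
    exact fun t => congrFun h1 t
  refine ⟨F, hFc, hF, h0, ?_⟩
  intro R t hR0 hR1
  have hin : ∀ s, 0 ≤ cl s * R ∧ cl s * R ≤ R ∧ cl s * R < 1 := fun s => by
    have := cl_mem s
    refine ⟨mul_nonneg this.1 hR0, by nlinarith, by nlinarith⟩
  have hmem : ∀ s, ((cl s * R : ℝ) : ℂ) * w t ∈ (Metric.ball (0 : ℂ) 1) := fun s => by
    rw [mem_D, norm_mul, Complex.norm_real, Real.norm_eq_abs, abs_of_nonneg (hin s).1]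
    nlinarith [P.le t, norm_nonneg (w t), (hin s).1, (hin s).2.2]
  have hq : ∀ s, qp w (cl s * R, t) = ((cl s * R : ℝ) : ℂ) * w t := fun s => by
    unfold qp
    simp only
    rw [cl_eq (hin s).1 (hin s).2.2.le]
  have c1 : Continuous fun s : ℝ => ((cl s * R, t) : ℝ × ℝ) :=
    (cl_cont.mul continuous_const).prodMk continuous_const
  have c2 : Continuous fun s : ℝ => ((cl s * R : ℝ) : ℂ) * w t :=
    (Complex.continuous_ofReal.comp (cl_cont.mul continuous_const)).mul continuous_const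
  have h1 := lift_unique (A := ℝ) (G := G) (f := fun s => (κ : ℂ) + ff p q (qp w (cl s * R, t)))
    ((qp_fcont P).comp c1) (fun t => qp_Cv P B.cv _)
    (F := fun s => F (cl s * R, t)) (F' := fun s => Φ k (((cl s * R : ℝ) : ℂ) * w t))
    (hFc.comp c1) ((B.cont k).comp_continuous c2 hmem) (fun s => hF _)
    (fun s => by rw [B.ev k _ (hmem s), hq]) (a₀ := 0) (by
      simp only [cl_zero, zero_mul, Complex.ofReal_zero]
      rw [h0, B.zero])
  have h2 := congrFun h1 1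
  simp only [cl_one, one_mul] at h2
  exact h2

end

end Pool.Agent.N686.RS
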