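import Pool.Agent.N686.RS.Loop
import Pool.Agent.N686.RR.Form
set_option autoImplicit false

/-!
The quadratic form of the regulators.
-/

namespace Pool.Agent.N686.RS

open Set Filter Topology Complex MeasureTheory Polynomial

open Pool.Agent.N76.EC (th Wp Zp)

open Pool.Agent.Y775.CC (psi psi_self psi_ne)

open Pool.Agent.TH826.UH (pr NZ pr_mul)

open Pool.Agent.TH826.MK (circ norm_circ)

open Pool.Agent.N686.DI (tp)

open Pool.Agent.N686.EL (cs sn continuous_cs continuous_sn circ_eq_mul circ_one_pow_nat circ_one_pow_neg)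

open Pool.Agent.N686.RR (Uni tc tc_zero pm ineq0 cont_g int_cs' hasSum_Av Av)

open scoped Real ComplexConjugate

/-! ### The form -/


section form

variable {n : ℕ} {Φ : Fin n → ℂ → ℂ} (H : Uni (Metric.ball (0 : ℂ) 1) Φ) {aa : Fin n → Fin n → ℂ → ℂ}
  (haa : ∀ i j, DifferentiableOn ℂ (aa i j) (Metric.ball (0 : ℂ) 1))
  (he : ∀ i j, ∀ u ∈ (Metric.ball (0 : ℂ) 1), Complex.exp (aa i j u) = psi Φ i j 0 u)
  {R : ℝ} (h0 : 0 < R) (h1 : R < 1) {p q κ : ℝ} {w : ℝ → ℂ} (W : Wr p q κ w)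
  (c : Fin n → ℝ) (hc : ∑ i, c i = 0)

include H haa he h0 h1 W hc

theorem step (M : ℕ) : (∑ i, ∑ j, c i * c j * (tc (aa i j) 0).re) +
    (∑ i, ∑ j, c i * c j * ∑ m ∈ Finset.Icc 1 M, (tc (aa i j) m * R ^ m).re * pm w m) ≤
      (-Real.log R - lam p q w / 2 + 1 / 4 * Real.log ((p + q) / 4)) * ∑ i, c i ^ 2 := by
  have hV : ∀ z : ℂ, ‖z‖ ≤ R → z ∈ (Metric.ball (0 : ℂ) 1) := fun z hz => mem_ball_zero_iff.2 (lt_of_le_of_lt hz h1)
  have hlog : ∀ i j, ∀ u ∈ (Metric.ball (0 : ℂ) 1), Real.log ‖psi Φ i j 0 u‖ = (aa i j u).re := fun i j u hu => by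
    rw [← he i j u hu, Complex.norm_exp, Real.log_exp]
  have key := ineq0 H h0 hV c hc (fun i m => c i * pm w m) (fun _ _ => 0) M
  have hmem : ∀ t, circ R t ∈ (Metric.ball (0 : ℂ) 1) := fun t => hV _ (norm_circ h0.le t).le
  have e1 : (∑ j, ∑ i, c i * c j * Real.log ‖psi Φ i j 0 0‖) =
      ∑ i, ∑ j, c i * c j * (tc (aa i j) 0).re := by
    rw [Finset.sum_comm]
    refine Finset.sum_congr rfl fun i _ => Finset.sum_congr rfl fun j _ => ?_
    rw [hlog i j 0 (Metric.mem_ball_self one_pos), tc_zero]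
  have e2 : 2 * (∑ i, ∫ t in (0 : ℝ)..1, (∑ j, c j * Real.log ‖psi Φ i j 0 (circ R t)‖) *
      tp (fun m => c i * pm w m) (fun _ => 0) M t) =
      ∑ i, ∑ j, c i * c j * ∑ m ∈ Finset.Icc 1 M, (tc (aa i j) m * R ^ m).re * pm w m := by
    rw [Finset.mul_sum]
    refine Finset.sum_congr rfl fun i _ => ?_
    have e3 : ∀ t, (∑ j, c j * Real.log ‖psi Φ i j 0 (circ R t)‖) *
        tp (fun m => c i * pm w m) (fun _ => 0) M t =
        ∑ j, ∑ m ∈ Finset.Icc 1 M, c i * c j * pm w m * ((aa i j (circ R t)).re * cs m t) := by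
      intro t
      unfold tp
      rw [Finset.sum_mul]
      refine Finset.sum_congr rfl fun j _ => ?_
      rw [Finset.mul_sum]
      refine Finset.sum_congr rfl fun m _ => ?_
      rw [hlog i j _ (hmem t)]
      ring
    simp only [e3]
    have hct : ∀ j m, Continuous fun t => c i * c j * pm w m * ((aa i j (circ R t)).re * cs m t) :=
      fun j m => continuous_const.mul ((continuous_re.comp (cont_g h0 hV (haa i j))).mul
        (continuous_cs m))
    rw [intervalIntegral.integral_finsetSum fun j _ => (continuous_finsetSum _ fun m _ =>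
      hct j m).intervalIntegrable _ _, Finset.mul_sum]
    refine Finset.sum_congr rfl fun j _ => ?_
    rw [intervalIntegral.integral_finsetSum fun m _ => (hct j m).intervalIntegrable _ _,
      Finset.mul_sum, Finset.mul_sum]
    refine Finset.sum_congr rfl fun m hm => ?_
    rw [intervalIntegral.integral_const_mul, int_cs' (haa i j) h0 h1 (Finset.mem_Icc.1 hm).1]
    ring
  have e4 : ∑ i, ∑ k ∈ Finset.Icc 1 M, ((c i * pm w k) ^ 2 + (0 : ℝ) ^ 2) / (2 * k) =
      (∑ i, c i ^ 2) * ((∑ m ∈ Finset.Icc 1 M, pm w m ^ 2 / m) / 2) := by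
    rw [Finset.sum_mul]
    refine Finset.sum_congr rfl fun i _ => ?_
    rw [Finset.sum_div, Finset.mul_sum]
    refine Finset.sum_congr rfl fun m hm => ?_
    have hm0 : (m : ℝ) ≠ 0 := by
      have := (Finset.mem_Icc.1 hm).1
      exact_mod_cast (by omega : m ≠ 0)
    field_simp
    ring
  rw [e1, e2, e4] at key
  have h5 := sum_pm_le W M
  have h6 : 0 ≤ ∑ i, c i ^ 2 := Finset.sum_nonneg fun i _ => sq_nonneg _
  nlinarith [mul_le_mul_of_nonneg_left h5 h6]

end form

end Pool.Agent.N686.RS
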