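import Pool.Agent.N686.RS.Form
import Pool.Agent.N686.RR.Form2
set_option autoImplicit false

/-!
The quadratic form of the regulators is negative: the limit.
-/

namespace Pool.Agent.N686.RS

open Set Filter Topology Complex MeasureTheory Polynomial

open Pool.Agent.N76.EC (th Wp Zp)

open Pool.Agent.Y775.CC (psi psi_self psi_ne)

open Pool.Agent.TH826.UH (pr NZ pr_mul)

open scoped Real ComplexConjugate


open Pool.Agent.N686.RR (Uni tc tc_zero pm pm_zero hasSum_Av Av exists_logs Wp_le)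

/-- the mean over both paths -/
noncomputable def Tm (p q κ : ℝ) (A : ℂ → ℂ) (R : ℝ) : ℝ :=
  ((Av 1 fun t => A (R * wc p q κ t)).re + (Av (-1) fun t => A (R * conj (wc p q κ t))).re) / 2

variable {p q : ℝ} (Pq : Par p q)

include Pq

theorem hasSum_Tm {A : ℂ → ℂ} (hA : DifferentiableOn ℂ A (Metric.ball (0 : ℂ) 1)) {R : ℝ} (h0 : 0 < R) (h1 : R < 1) (κ : ℝ) :
    HasSum (fun m => (tc A m * R ^ m).re * pm (wr p q κ) m) (Tm p q κ A R) := by
  have a1 := hasSum_Av hA h0 h1 (wc_cont Pq κ) (fun t => norm_Wf_le Pq (Wp_le t)) 1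
  have a2 := hasSum_Av hA h0 h1 (w := fun t => conj (wc p q κ t)) (continuous_conj.comp (wc_cont Pq κ))
    (fun t => by
      rw [RCLike.norm_conj]
      exact norm_Wf_le Pq (Wp_le t)) (-1)
  have b1 := Complex.hasSum_re a1
  have b2 := Complex.hasSum_re a2
  have b3 := (b1.add b2).div_const 2
  unfold Tm
  have e : (fun m => (tc A m * R ^ m).re * pm (wr p q κ) m) = fun m : ℕ =>
      ((tc A m * R ^ m * Av 1 (fun t => wc p q κ t ^ m)).re +
        (tc A m * R ^ m * Av (-1) (fun t => (conj (wc p q κ t)) ^ m)).re) / 2 := by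
    funext m
    have key : ∀ z v : ℂ, z.re * v.re = ((z * v).re + (z * conj v).re) / 2 := by
      intro z v
      rw [Complex.mul_re, Complex.mul_re, conj_re, conj_im]
      ring
    rw [mom_one Pq, mom_neg Pq, ← mu_re Pq]
    exact key _ _
  rw [e]
  exact b3

section form

variable {n : ℕ} {Φ : Fin n → ℂ → ℂ} (H : Uni (Metric.ball (0 : ℂ) 1) Φ) {aa : Fin n → Fin n → ℂ → ℂ}
  (haa : ∀ i j, DifferentiableOn ℂ (aa i j) (Metric.ball (0 : ℂ) 1))
  (he : ∀ i j, ∀ u ∈ (Metric.ball (0 : ℂ) 1), Complex.exp (aa i j u) = psi Φ i j 0 u)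
  (κ : ℝ) (c : Fin n → ℝ) (hc : ∑ i, c i = 0)

include H haa he hc

theorem total {R : ℝ} (h0 : 0 < R) (h1 : R < 1) : ∑ i, ∑ j, c i * c j * Tm p q κ (aa i j) R ≤
    (-Real.log R - lam p q (wr p q κ) / 2 + 1 / 4 * Real.log ((p + q) / 4)) * ∑ i, c i ^ 2 := by
  have ht : Tendsto (fun M => ∑ i, ∑ j, c i * c j *
      ∑ m ∈ Finset.range M, (tc (aa i j) m * R ^ m).re * pm (wr p q κ) m) atTop
      (𝓝 (∑ i, ∑ j, c i * c j * Tm p q κ (aa i j) R)) :=
    tendsto_finsetSum _ fun i _ => tendsto_finsetSum _ fun j _ =>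
      ((hasSum_Tm Pq (haa i j) h0 h1 κ).tendsto_sum_nat).const_mul _
  have ht' := ht.comp (tendsto_add_atTop_nat 1)
  refine le_of_tendsto' ht' fun M => ?_
  refine le_trans (le_of_eq ?_) (step H haa he h0 h1 (wr_Wr Pq κ) c hc M)
  simp only [Function.comp]
  rw [← Finset.sum_add_distrib]
  refine Finset.sum_congr rfl fun i _ => ?_
  rw [← Finset.sum_add_distrib]
  refine Finset.sum_congr rfl fun j _ => ?_
  rw [← mul_add]
  congr 1
  rw [Finset.range_eq_Ico, Finset.sum_eq_sum_Ico_succ_bot (by omega)]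
  congr 1
  rw [pm_zero, pow_zero, mul_one, mul_one]

end form

/-- **The form is negative.** -/
theorem form_le {G : ℂ[X]} {κ α : ℝ} (hκ : κ = 2 * Real.cos α) (hα : Real.sin α ≠ 0) {n : ℕ}
    {b : Fin n → ℂ} {Φ : Fin n → ℂ → ℂ} (B : Br p q G κ b Φ) {m : ℂ} (hm : m ≠ 0)
    (hprod : ∀ x : ℂ, G.eval x - κ = m * ∏ i, (x - b i))
    {F₁ F₂ : Fin n → ℝ × ℝ → ℂ} (S₁ : Sq p q G κ b Φ (wc p q κ) F₁)
    (S₂ : Sq p q G κ b Φ (fun t => conj (wc p q κ t)) F₂) (c : Fin n → ℝ) (hc : ∑ i, c i = 0) :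
    ∑ i, ∑ j, c i * c j * ((RR.Sq.rg 1 F₁ b i j + RR.Sq.rg (-1) F₂ b i j) / 2) ≤
      (lam p q (wr p q κ) / 2 + 1 / 4 * Real.log ((p + q) / 4)) * ∑ i, c i ^ 2 := by
  have P₁ := pth_one Pq hκ hα
  have P₂ := pth_neg Pq hκ hα
  have H := B.uni
  obtain ⟨aa, haa, he⟩ := exists_logs H (Metric.mem_ball_self one_pos)
  have t1 := fun i j => Sq.tendsto_rg S₁ P₁ B hm hprod i j (haa i j) (he i j)
  have t2 := fun i j => Sq.tendsto_rg S₂ P₂ B hm hprod i j (haa i j) (he i j)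
  have t3 : Tendsto (fun R : ℝ => ∑ i, ∑ j, c i * c j * Tm p q κ (aa i j) R) (𝓝[<] 1)
      (𝓝 (∑ i, ∑ j, c i * c j * (((RR.Sq.rg 1 F₁ b i j - if j = i then lam p q (wr p q κ) else 0) +
        (RR.Sq.rg (-1) F₂ b i j - if j = i then lam p q (wr p q κ) else 0)) / 2))) :=
    tendsto_finsetSum _ fun i _ => tendsto_finsetSum _ fun j _ =>
      (((t1 i j).add (t2 i j)).div_const 2).const_mul _
  have t4 : Tendsto (fun R : ℝ => (-Real.log R - lam p q (wr p q κ) / 2 + 1 / 4 * Real.log ((p + q) / 4)) * ∑ i, c i ^ 2) (𝓝[<] 1)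
      (𝓝 ((-Real.log 1 - lam p q (wr p q κ) / 2 + 1 / 4 * Real.log ((p + q) / 4)) * ∑ i, c i ^ 2)) := by
    have h1 : ContinuousAt (fun R : ℝ => (-Real.log R - lam p q (wr p q κ) / 2 + 1 / 4 * Real.log ((p + q) / 4)) * ∑ i, c i ^ 2) 1 := by
      have h2 := Real.continuousAt_log (one_ne_zero)
      exact (((h2.neg).sub continuousAt_const).add continuousAt_const).mul continuousAt_const
    exact h1.tendsto.mono_left nhdsWithin_le_nhds
  have h5 := le_of_tendsto_of_tendsto t3 t4 (by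
    filter_upwards [Ioo_mem_nhdsLT (show (0 : ℝ) < 1 from zero_lt_one)] with R hR
    exact total Pq H haa he κ c hc hR.1 hR.2)
  have e : ∑ i, ∑ j, c i * c j * (((RR.Sq.rg 1 F₁ b i j - if j = i then lam p q (wr p q κ) else 0) +
        (RR.Sq.rg (-1) F₂ b i j - if j = i then lam p q (wr p q κ) else 0)) / 2) =
      ∑ i, ∑ j, c i * c j * ((RR.Sq.rg 1 F₁ b i j + RR.Sq.rg (-1) F₂ b i j) / 2) -
        lam p q (wr p q κ) * ∑ i, c i ^ 2 := by
    have e2 : ∀ i j, c i * c j * (((RR.Sq.rg 1 F₁ b i j - if j = i then lam p q (wr p q κ) else 0) +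
        (RR.Sq.rg (-1) F₂ b i j - if j = i then lam p q (wr p q κ) else 0)) / 2) =
        c i * c j * ((RR.Sq.rg 1 F₁ b i j + RR.Sq.rg (-1) F₂ b i j) / 2) -
          (if j = i then lam p q (wr p q κ) * (c i * c j) else 0) := by
      intro i j
      split_ifs <;> ring
    simp only [e2, Finset.sum_sub_distrib, Finset.sum_ite_eq', Finset.sum_ite_eq, Finset.mem_univ,
      if_true]
    congr 1
    rw [Finset.mul_sum]
    exact Finset.sum_congr rfl fun i _ => by ring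
  rw [e, Real.log_one] at h5
  linarith

end Pool.Agent.N686.RS
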