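import Pool.Agent.N686.RR.IntR
set_option autoImplicit false

/-!
The critical values of polynomials with distinct integral roots.
-/

namespace Pool.Agent.N686.RS

open Polynomial

open Pool.Agent.N686.DI

theorem mm_three : mm 3 = 3 / 8 := by
  rw [mm_succ, mm_two]
  norm_num

theorem mm_ge_three {n : ℕ} (hn : 3 ≤ n) : 3 / 8 ≤ mm n := by
  induction n, hn using Nat.le_induction with
  | base => rw [mm_three]
  | succ n hn ih => exact ih.trans (mm_le_succ (by omega))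

/-- **The critical values of `m ∏ (x - b_i)` are at least `3/8`, if there are not just two roots.** -/
theorem eighth_le {g : ℕ} (hg : g ≠ 1) {m : ℂ} (hm : 1 ≤ ‖m‖) (b : Fin (g + 1) → ℤ)
    (hb : Function.Injective b) {ξ : ℂ}
    (hξ : (derivative (∏ i, (X - C (b i : ℂ)))).eval ξ = 0) :
    3 / 8 ≤ ‖m * ∏ i, (ξ - (b i : ℂ))‖ := by
  obtain ⟨h1, -⟩ := crit_int_ge b hb hξ
  have h2 := (mm_ge_three (by omega : 3 ≤ g + 1)).trans (crit_int (Nat.succ_pos g) b hb hξ)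
  rw [norm_mul]
  nlinarith

/-- two roots -/
theorem two_roots (b : Fin (1 + 1) → ℤ) {ξ : ℂ}
    (hξ : (derivative (∏ i, (X - C (b i : ℂ)))).eval ξ = 0) :
    ∏ i, (ξ - (b i : ℂ)) = ((-(((b 0 : ℝ) - b 1) ^ 2 / 4) : ℝ) : ℂ) := by
  have h1 : ∏ i, (X - C (b i : ℂ)) = (X - C (b 0 : ℂ)) * (X - C (b 1 : ℂ)) := Fin.prod_univ_two _
  have h2 : ∏ i, (ξ - (b i : ℂ)) = (ξ - (b 0 : ℂ)) * (ξ - (b 1 : ℂ)) := Fin.prod_univ_two _
  rw [h1, derivative_mul, derivative_sub, derivative_sub, derivative_X, derivative_C, derivative_C,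
    sub_zero, one_mul, mul_one, eval_add, eval_sub, eval_sub, eval_X, eval_C, eval_C] at hξ
  rw [h2]
  push_cast
  linear_combination (1 / 4 * (ξ - (b 1 : ℂ) + (ξ - (b 0 : ℂ)))) * hξ

end Pool.Agent.N686.RS
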