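import Pool.Agent.N686.RS.Path2
set_option autoImplicit false

/-!
An upper bound for the integral of `log |w|`.
-/

namespace Pool.Agent.N686.RS

open Set Filter Topology Complex MeasureTheory

open Pool.Agent.TH826.MK (circ norm_circ)

open Pool.Agent.N686.EL (lg circ_one_neg circ_add ae_shift ii_one int_sub_one int_add_one
  intervalIntegrable_lg_one ae_circ_ne_one lg_add_one)

open Pool.Agent.N686.RR (norm_cos_sub)

open scoped Real

section

variable {p q κ : ℝ} {w : ℝ → ℂ} (H : Wr p q κ w) {α : ℝ} (hα : κ = 2 * Real.cos (2 * π * α))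

include H hα

theorem ae_key : ∀ᵐ s : ℝ, Real.log ‖DD p q (w s)‖ + (lg 1 (α - s) + lg 1 (s + α)) = Real.log ‖w s‖ ∧
    w s ≠ 0 := by
  have h2 : ∀ᵐ s : ℝ, circ 1 (s + α) ≠ 1 :=
    (quasiMeasurePreserving_add_right volume α).ae ae_circ_ne_one
  filter_upwards [ae_shift α, h2] with s hs1 hs2
  have p1 : 0 < ‖1 - circ 1 (α - s)‖ := norm_pos_iff.2 (sub_ne_zero.2 hs1.symm)
  have p2 : 0 < ‖1 - circ 1 (s + α)‖ := norm_pos_iff.2 (sub_ne_zero.2 hs2.symm)
  have p3 : 0 < ‖DD p q (w s)‖ := norm_pos_iff.2 (H.ne s)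
  have l1 : lg 1 (α - s) = Real.log ‖1 - circ 1 (α - s)‖ := by
    unfold lg
    rw [Complex.ofReal_one, one_mul]
  have l2 : lg 1 (s + α) = Real.log ‖1 - circ 1 (s + α)‖ := by
    unfold lg
    rw [Complex.ofReal_one, one_mul]
  have h3 := H.eq s
  unfold ff at h3
  rw [div_eq_iff (H.ne s)] at h3
  have h4 : ‖w s‖ = ‖1 - circ 1 (α - s)‖ * ‖1 - circ 1 (s + α)‖ * ‖DD p q (w s)‖ := by
    rw [← norm_cos_sub, abs_sub_comm, ← hα]
    conv_lhs => rw [h3]
    rw [norm_mul, Complex.norm_real, Real.norm_eq_abs]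
  constructor
  · rw [l1, l2, ← Real.log_mul p1.ne' p2.ne', ← Real.log_mul p3.ne' (by positivity), h4]
    congr 1
    ring
  · rw [← norm_pos_iff, h4]
    positivity

theorem lam_eq : IntervalIntegrable (fun s => Real.log ‖w s‖) volume 0 1 ∧
    lam p q w = ∫ s in (0 : ℝ)..1, Real.log ‖w s‖ := by
  have i1 : IntervalIntegrable (fun s => lg 1 (α - s)) volume 0 1 := ii_one α
  have i2 : IntervalIntegrable (fun s => lg 1 (s + α)) volume 0 1 := by
    have h := (intervalIntegrable_lg_one (0 + α) (1 + α)).comp_add_right α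
    simpa using h
  have i3 : IntervalIntegrable (fun s => Real.log ‖DD p q (w s)‖) volume 0 1 :=
    (cont_log_one H).intervalIntegrable _ _
  have e1 : lam p q w = ∫ s in (0 : ℝ)..1, (Real.log ‖DD p q (w s)‖ + (lg 1 (α - s) + lg 1 (s + α))) := by
    rw [intervalIntegral.integral_add i3 (i1.add i2), intervalIntegral.integral_add i1 i2,
      int_sub_one zero_le_one le_rfl, int_add_one zero_le_one le_rfl, add_zero, add_zero]
    rfl
  have key : ∀ᵐ s : ℝ, s ∈ uIoc (0 : ℝ) 1 →
      Real.log ‖DD p q (w s)‖ + (lg 1 (α - s) + lg 1 (s + α)) = Real.log ‖w s‖ := by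
    filter_upwards [ae_key H hα] with s hs _
    exact hs.1
  constructor
  · refine (i3.add (i1.add i2)).congr_ae ?_
    exact (ae_restrict_iff' measurableSet_uIoc).2 key
  · rw [e1]
    exact intervalIntegral.integral_congr_ae key

end

/-- the comparison function -/
noncomputable def gg (l s : ℝ) : ℝ := Real.log s - Real.log l - Real.log 2 + (s / l) ^ 2

theorem gg_ii (l a b : ℝ) : IntervalIntegrable (gg l) volume a b := by
  unfold gg
  refine ((intervalIntegral.intervalIntegrable_log'.sub intervalIntegrable_const).sub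
    intervalIntegrable_const).add (Continuous.intervalIntegrable (by fun_prop) _ _)

theorem int_gg {l : ℝ} (hl : 0 < l) : ∫ s in (0 : ℝ)..l, gg l s = -l * (2 / 3 + Real.log 2) := by
  have e : ∫ s in (0 : ℝ)..l, (s / l) ^ 2 = l / 3 := by
    have e1 : ∀ s : ℝ, (s / l) ^ 2 = s ^ 2 * (l ^ 2)⁻¹ := fun s => by
      rw [div_pow, div_eq_mul_inv]
    simp only [e1]
    rw [intervalIntegral.integral_mul_const, integral_pow]
    have := hl.ne'
    norm_num
    field_simp
  unfold gg
  rw [intervalIntegral.integral_add ((intervalIntegral.intervalIntegrable_log'.sub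
    intervalIntegrable_const).sub intervalIntegrable_const)
    (Continuous.intervalIntegrable (by fun_prop) _ _), intervalIntegral.integral_sub
    (intervalIntegral.intervalIntegrable_log'.sub intervalIntegrable_const) intervalIntegrable_const,
    intervalIntegral.integral_sub intervalIntegral.intervalIntegrable_log' intervalIntegrable_const,
    integral_log, e, intervalIntegral.integral_const, intervalIntegral.integral_const]
  simp only [smul_eq_mul]
  ring

theorem win {f : ℝ → ℝ} {c l : ℝ} (hl : 0 < l) (hf : IntervalIntegrable f volume c (c + l))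
    (h : ∀ᵐ t : ℝ, t ∈ Icc c (c + l) → f t ≤ gg l (t - c)) :
    ∫ t in c..(c + l), f t ≤ -l * (2 / 3 + Real.log 2) := by
  have hg : IntervalIntegrable (fun t => gg l (t - c)) volume c (c + l) := by
    have h1 := (gg_ii l 0 l).comp_sub_right c
    rwa [zero_add, add_comm] at h1
  have h1 := intervalIntegral.integral_mono_ae_restrict (by linarith) hf hg
    ((ae_restrict_iff' measurableSet_Icc).2 h)
  refine h1.trans (le_of_eq ?_)
  rw [intervalIntegral.integral_comp_sub_right (fun t => gg l t), sub_self, add_sub_cancel_left,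
    int_gg hl]

theorem win' {f : ℝ → ℝ} {c l : ℝ} (hl : 0 < l) (hf : IntervalIntegrable f volume (c - l) c)
    (h : ∀ᵐ t : ℝ, t ∈ Icc (c - l) c → f t ≤ gg l (c - t)) :
    ∫ t in (c - l)..c, f t ≤ -l * (2 / 3 + Real.log 2) := by
  have hg : IntervalIntegrable (fun t => gg l (c - t)) volume (c - l) c := by
    have h1 := (gg_ii l l 0).comp_sub_left c
    rwa [sub_zero] at h1
  have h1 := intervalIntegral.integral_mono_ae_restrict (by linarith) hf hg
    ((ae_restrict_iff' measurableSet_Icc).2 h)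
  refine h1.trans (le_of_eq ?_)
  rw [intervalIntegral.integral_comp_sub_left (fun t => gg l t), sub_self, sub_sub_cancel,
    int_gg hl]

theorem log_w_le {p : ℝ} (hp : 0 ≤ p) {w : ℂ} (hw0 : w ≠ 0) (hw : ‖w‖ ≤ 1) {r x : ℝ}
    (hr : w = r * DD p p w) (hx0 : 0 ≤ x) (hx : p * |r| ≤ x) :
    Real.log ‖w‖ ≤ Real.log x - Real.log 2 + x ^ 2 := by
  have hy := norm_pos_iff.2 hw0
  have h1 : ‖DD p p w‖ ≤ p / 2 * (1 + ‖w‖ ^ 2) := by
    unfold DD
    rw [sub_self, zero_div, Complex.ofReal_zero, zero_mul, sub_zero, norm_mul, Complex.norm_real,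
      Real.norm_eq_abs, abs_of_nonneg (by positivity)]
    have h2 : ‖1 + w ^ 2‖ ≤ 1 + ‖w‖ ^ 2 := by
      refine (norm_add_le _ _).trans ?_
      rw [norm_one, norm_pow]
    calc (p + p) / 4 * ‖1 + w ^ 2‖ ≤ (p + p) / 4 * (1 + ‖w‖ ^ 2) :=
          mul_le_mul_of_nonneg_left h2 (by positivity)
      _ = p / 2 * (1 + ‖w‖ ^ 2) := by ring
  have h3 : ‖w‖ ≤ x / 2 * (1 + ‖w‖ ^ 2) := by
    have h4 : ‖w‖ = |r| * ‖DD p p w‖ := by
      conv_lhs => rw [hr]
      rw [norm_mul, Complex.norm_real, Real.norm_eq_abs]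
    rw [h4]
    rw [← h4]
    calc ‖w‖ = |r| * ‖DD p p w‖ := h4
      _ ≤ |r| * (p / 2 * (1 + ‖w‖ ^ 2)) := mul_le_mul_of_nonneg_left h1 (abs_nonneg _)
      _ = p * |r| / 2 * (1 + ‖w‖ ^ 2) := by ring
      _ ≤ x / 2 * (1 + ‖w‖ ^ 2) := by gcongr
  have h5 : ‖w‖ ≤ x := by nlinarith
  have hxp : 0 < x := lt_of_lt_of_le hy h5
  have h6 : ‖w‖ ≤ x / 2 * (1 + x ^ 2) := by
    refine h3.trans ?_
    gcongr
  refine (Real.log_le_log hy h6).trans ?_
  rw [Real.log_mul (by positivity) (by positivity), Real.log_div hxp.ne' two_ne_zero]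
  have h7 := Real.log_le_sub_one_of_pos (show 0 < 1 + x ^ 2 by positivity)
  linarith

/-- **The bound for the integral of `log |w|`.** -/
theorem lam_le {p h κ α : ℝ} (Pq : Par p p) (hκ : κ = 2 * Real.cos (2 * π * α)) (hα0 : 0 < α)
    (hα1 : α < 1 / 2) (hh : 0 < h) (h1 : 4 * π * p * h = 1) (h2 : 8 * π * h ≤ 1) :
    lam p p (wr p p κ) ≤ -(4 * h) * (2 / 3 + Real.log 2) := by
  have hπ := Real.pi_gt_three
  have hπ0 := Real.pi_pos
  have hp := Pq.p0
  have hh8 : h ≤ 1 / 24 := by nlinarith
  have W := wr_Wr Pq κ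
  obtain ⟨hint, heq⟩ := lam_eq W hκ
  set f : ℝ → ℝ := fun t => Real.log ‖wr p p κ t‖ with hf
  have hf0 : ∀ t, f t ≤ 0 := fun t => Real.log_nonpos (norm_nonneg _) (W.le t)
  have hsub : ∀ a b : ℝ, 0 ≤ a → a ≤ b → b ≤ 1 → IntervalIntegrable f volume a b := by
    intro a b ha hab hb
    refine hint.mono_set ?_
    rw [uIcc_of_le hab, uIcc_of_le zero_le_one]
    exact Icc_subset_Icc ha hb
  have hhalf : ∫ t in (0 : ℝ)..1, f t = 2 * ∫ t in (0 : ℝ)..(1 / 2), f t := by
    have h3 : ∫ s in (1 / 2 : ℝ)..1, f s = ∫ s in (0 : ℝ)..(1 / 2), f s := by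
      have h4 := intervalIntegral.integral_comp_sub_left (a := (0 : ℝ)) (b := 1 / 2) f 1
      have e : ∀ t, f (1 - t) = f t := fun t => by
        simp only [hf]
        rw [wr_symm]
      simp only [e] at h4
      rw [h4]
      norm_num
    rw [← intervalIntegral.integral_add_adjacent_intervals (b := 1 / 2)
      (hsub _ _ le_rfl (by norm_num) (by norm_num)) (hsub _ _ (by norm_num) (by norm_num) le_rfl), h3]
    ring
  have hnp : ∀ a b : ℝ, a ≤ b → ∫ t in a..b, f t ≤ 0 := by
    intro a b hab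
    have h3 := intervalIntegral.integral_nonneg (f := fun t => -f t) (μ := volume) hab
      (fun t _ => neg_nonneg.2 (hf0 t))
    rw [intervalIntegral.integral_neg] at h3
    linarith
  have hmono : ∀ a b : ℝ, 0 ≤ a → a ≤ b → b ≤ 1 / 2 →
      ∫ t in (0 : ℝ)..(1 / 2), f t ≤ ∫ t in a..b, f t := by
    intro a b ha hab hb
    rw [← intervalIntegral.integral_add_adjacent_intervals (b := a)
      (hsub _ _ le_rfl ha (by linarith)) (hsub _ _ ha (by linarith) (by linarith)),
      ← intervalIntegral.integral_add_adjacent_intervals (a := a) (b := b)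
      (hsub _ _ ha hab (by linarith)) (hsub _ _ (by linarith) hb (by norm_num))]
    have h3 := hnp 0 a ha
    have h4 := hnp b (1 / 2) hb
    linarith
  -- the pointwise bound
  have hr : ∀ t, 2 * Real.cos (2 * π * t) - κ =
      -4 * Real.sin (π * (t + α)) * Real.sin (π * (t - α)) := by
    intro t
    have h3 := Real.cos_sub_cos (2 * π * t) (2 * π * α)
    rw [show (2 * π * t + 2 * π * α) / 2 = π * (t + α) by ring,
      show (2 * π * t - 2 * π * α) / 2 = π * (t - α) by ring] at h3
    rw [hκ]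
    linear_combination 2 * h3
  have hs : ∀ t, |Real.sin (π * (t - α))| ≤ π * |t - α| := by
    intro t
    refine Real.abs_sin_le_abs.trans ?_
    rw [abs_mul, abs_of_pos hπ0]
  have hpt : ∀ t l : ℝ, 0 < l → wr p p κ t ≠ 0 →
      p * |2 * Real.cos (2 * π * t) - κ| ≤ |t - α| / l → f t ≤ gg l |t - α| := by
    intro t l hl hw0 hx
    have h3 : wr p p κ t = ((2 * Real.cos (2 * π * t) - κ : ℝ) : ℂ) * DD p p (wr p p κ t) := by
      have h4 := W.eq t
      unfold ff at h4
      rwa [div_eq_iff (W.ne t)] at h4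
    have h5 := log_w_le hp hw0 (W.le t) h3 (by positivity) hx
    have ht : |t - α| ≠ 0 := by
      intro h0
      rw [h0, zero_div] at hx
      have h6 : t - α = 0 := abs_eq_zero.1 h0
      apply hw0
      rw [h3, hr, h6, mul_zero, Real.sin_zero, mul_zero, Complex.ofReal_zero, zero_mul]
    unfold gg
    rw [Real.log_div ht hl.ne'] at h5
    exact h5
  have b1 : ∀ t, p * |2 * Real.cos (2 * π * t) - κ| ≤ |t - α| / h := by
    intro t
    rw [hr, abs_mul, abs_mul]
    have e : |(-4 : ℝ)| = 4 := by norm_num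
    rw [e]
    have h3 := Real.abs_sin_le_one (π * (t + α))
    have h4 := hs t
    have h5 : 4 * |Real.sin (π * (t + α))| * |Real.sin (π * (t - α))| ≤ 4 * 1 * (π * |t - α|) := by
      gcongr
    have h6 : |t - α| / h = p * (4 * 1 * (π * |t - α|)) := by
      rw [div_eq_iff hh.ne']
      linear_combination -|t - α| * h1
    rw [h6]
    exact mul_le_mul_of_nonneg_left h5 hp
  have b2 : ∀ t, |Real.sin (π * (t + α))| ≤ π * (4 * h) →
      p * |2 * Real.cos (2 * π * t) - κ| ≤ |t - α| / (2 * h) := by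
    intro t ht
    rw [hr, abs_mul, abs_mul]
    have e : |(-4 : ℝ)| = 4 := by norm_num
    rw [e]
    have h4 := hs t
    have h5 : 4 * |Real.sin (π * (t + α))| * |Real.sin (π * (t - α))| ≤
        4 * (π * (4 * h)) * (π * |t - α|) := by
      gcongr
    have h6 : p * (4 * (π * (4 * h)) * (π * |t - α|)) = 4 * π * |t - α| := by
      linear_combination 4 * π * |t - α| * h1
    have h7 : 4 * π * |t - α| ≤ |t - α| / (2 * h) := by
      rw [le_div_iff₀ (by positivity)]
      have := abs_nonneg (t - α)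
      nlinarith
    calc p * (4 * |Real.sin (π * (t + α))| * |Real.sin (π * (t - α))|) ≤
          p * (4 * (π * (4 * h)) * (π * |t - α|)) := mul_le_mul_of_nonneg_left h5 hp
      _ ≤ _ := by rw [h6]; exact h7
  have hae := ae_key W hκ
  have main : ∫ t in (0 : ℝ)..(1 / 2), f t ≤ -(2 * h) * (2 / 3 + Real.log 2) := by
    by_cases c1 : α < h
    · refine (hmono α (α + 2 * h) hα0.le (by linarith) (by linarith)).trans ?_
      refine win (by linarith) (hsub _ _ hα0.le (by linarith) (by linarith)) ?_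
      filter_upwards [hae] with t ht htI
      have h3 := hpt t (2 * h) (by linarith) ht.2 (b2 t ?_)
      · rwa [abs_of_nonneg (by linarith [htI.1])] at h3
      · refine Real.abs_sin_le_abs.trans ?_
        rw [abs_mul, abs_of_pos hπ0, abs_of_nonneg (by linarith [htI.1])]
        refine mul_le_mul_of_nonneg_left ?_ hπ0.le
        linarith [htI.2]
    by_cases c2 : 1 / 2 - h < α
    · refine (hmono (α - 2 * h) α (by linarith) (by linarith) hα1.le).trans ?_
      refine win' (by linarith) (hsub _ _ (by linarith) (by linarith) (by linarith)) ?_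
      filter_upwards [hae] with t ht htI
      have h3 := hpt t (2 * h) (by linarith) ht.2 (b2 t ?_)
      · rwa [abs_of_nonpos (by linarith [htI.2]), neg_sub] at h3
      · have e : π * (t + α) = π - π * (1 - t - α) := by ring
        rw [e, Real.sin_pi_sub]
        refine Real.abs_sin_le_abs.trans ?_
        rw [abs_mul, abs_of_pos hπ0, abs_of_nonneg (by linarith [htI.2])]
        refine mul_le_mul_of_nonneg_left ?_ hπ0.le
        linarith [htI.1]
    · push Not at c1 c2
      refine (hmono (α - h) (α + h) (by linarith) (by linarith) (by linarith)).trans ?_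
      rw [← intervalIntegral.integral_add_adjacent_intervals (b := α)
        (hsub _ _ (by linarith) (by linarith) (by linarith))
        (hsub _ _ hα0.le (by linarith) (by linarith))]
      have h3 : ∫ t in α..(α + h), f t ≤ -h * (2 / 3 + Real.log 2) := by
        refine win hh (hsub _ _ hα0.le (by linarith) (by linarith)) ?_
        filter_upwards [hae] with t ht htI
        have h3 := hpt t h hh ht.2 (b1 t)
        rwa [abs_of_nonneg (by linarith [htI.1])] at h3
      have h4 : ∫ t in (α - h)..α, f t ≤ -h * (2 / 3 + Real.log 2) := by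
        refine win' hh (hsub _ _ (by linarith) (by linarith) (by linarith)) ?_
        filter_upwards [hae] with t ht htI
        have h3 := hpt t h hh ht.2 (b1 t)
        rwa [abs_of_nonpos (by linarith [htI.2]), neg_sub] at h3
      linarith
  rw [heq, hhalf]
  linarith

/-- the case of the distance `3/8` -/
theorem lam_num {κ α : ℝ} (hκ : κ = 2 * Real.cos (2 * π * α)) (hα0 : 0 < α) (hα1 : α < 1 / 2) :
    lam (8 / 3) (8 / 3) (wr (8 / 3) (8 / 3) κ) / 2 + 1 / 4 * Real.log ((8 / 3 + 8 / 3) / 4) < 0 := by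
  have hπ0 := Real.pi_pos
  have hπ := Real.pi_lt_d2
  have h1 := lam_le (p := 8 / 3) (h := 3 / (32 * π)) ⟨by norm_num, by norm_num, by norm_num⟩ hκ hα0 hα1
    (by positivity) (by field_simp; norm_num) (by
      rw [mul_div_assoc', div_le_one (by positivity)]
      nlinarith)
  have h2 := Real.log_two_gt_d9
  have h3 : Real.log ((8 / 3 + 8 / 3) / 4) < 3 / 10 := by
    rw [Real.log_lt_iff_lt_exp (by norm_num)]
    have := Real.quadratic_le_exp_of_nonneg (show (0 : ℝ) ≤ 3 / 10 by norm_num)
    norm_num at this ⊢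
    linarith
  have h4 : 0.119 ≤ 4 * (3 / (32 * π)) := by
    rw [mul_div_assoc', le_div_iff₀ (by positivity)]
    norm_num
    nlinarith
  nlinarith

end Pool.Agent.N686.RS
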