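import Pool.Agent.N686.RS.Sb
import Pool.Agent.N686.RR.Path2
set_option autoImplicit false

/-!
The paths.
-/

namespace Pool.Agent.N686.RS

open Set Filter Topology Complex MeasureTheory

open Pool.Agent.N76.EC (th Wp Zp th_re th_im th_neg Wp_neg Wp_add_one Wp_add_int cos_im_zero contDiff_Wp nz_Zp)

open Pool.Agent.TH826.UH (pr NZ pr_mul)

open Pool.Agent.N686.RR (pm Hs Hi Av Av_shift Av_conj cos_le cos_lt Wp_le Wp_lt fold cos_symm Wp_symm
  Wp_conj Wr_im Wp_ne slit_Wp int_dth continuous_dth nz_const pr_even pr_unit pr_Wp)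

open scoped Real ComplexConjugate

noncomputable def wc (p q κ t : ℝ) : ℂ := Wf p q (Wp 1 t - κ)

noncomputable def wr (p q κ t : ℝ) : ℂ := Wf p q ((2 * Real.cos (2 * π * t) - κ : ℝ) : ℂ)

/-- the domain of the functions -/
def Sg (p q : ℝ) : Set ℂ := {w | ‖w‖ ≤ 1 ∧ DD p q w ≠ 0}

variable {p q : ℝ} (Pq : Par p q) {κ : ℝ}

include Pq

theorem Wf_mem {v : ℂ} (hv : v.im ≤ 0) : Wf p q v ∈ (Sg p q) := ⟨norm_Wf_le Pq hv, DD_ne Pq hv⟩

theorem Av_wc {g : ℂ → ℂ} (hg : ContinuousOn g (Sg p q)) (hd : ∀ w : ℂ, ‖w‖ < 1 → DifferentiableAt ℂ g w) :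
    Av 1 (fun t => g (wc p q κ t)) = ∫ x in (0 : ℝ)..1, g (Wf p q ((2 * Real.cos (π * x) - κ : ℝ) : ℂ)) := by
  have h := Av_shift (h := fun z => g (Wf p q (2 * Complex.cos z - κ))) (η := 1) ?_ ?_ zero_le_one
  · have e1 : (fun t => g (wc p q κ t)) = fun t => (fun z => g (Wf p q (2 * Complex.cos z - κ))) (th 1 t) := rfl
    rw [e1, h]
    refine intervalIntegral.integral_congr fun x _ => ?_
    show g (Wf p q (2 * Complex.cos ((π * x : ℝ) : ℂ) - κ)) = _
    rw [← Complex.ofReal_cos]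
    congr 2
    push_cast
    ring
  · have h1 : ContinuousOn (fun z : ℂ => 2 * Complex.cos z - κ) Hs :=
      ((continuous_const.mul Complex.continuous_cos).sub continuous_const).continuousOn
    have h2 : ContinuousOn (fun z : ℂ => Wf p q (2 * Complex.cos z - κ)) Hs :=
      (Wf_cont Pq).comp h1 fun z hz => cos_le hz
    exact hg.comp h2 fun z hz => Wf_mem Pq (cos_le hz)
  · intro z hz
    have h1 : DifferentiableAt ℂ (fun z : ℂ => 2 * Complex.cos z - κ) z := by fun_prop
    have h2 : DifferentiableAt ℂ (fun z : ℂ => Wf p q (2 * Complex.cos z - κ)) z :=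
      DifferentiableAt.comp z (Wf_diff Pq (cos_lt hz)) h1
    exact DifferentiableAt.comp z (hd _ (norm_Wf_lt Pq (cos_lt hz))) h2

theorem wr_Wr (κ : ℝ) : Wr p q κ (wr p q κ) where
  par := Pq
  cont := by
    refine (Wf_cont Pq).comp_continuous ?_ fun t => Wr_im κ t
    fun_prop
  le t := norm_Wf_le Pq (Wr_im κ t)
  ne t := DD_ne Pq (Wr_im κ t)
  eq t := ff_Wf Pq (Wr_im κ t)

omit Pq in
theorem wr_symm (κ t : ℝ) : wr p q κ (1 - t) = wr p q κ t := by
  unfold wr
  rw [cos_symm]

/-- folding the mean -/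
theorem fold_wr {g : ℂ → ℂ} (hg : ContinuousOn g (Sg p q)) :
    (∫ x in (0 : ℝ)..1, g (Wf p q ((2 * Real.cos (π * x) - κ : ℝ) : ℂ))).re =
      ∫ t in (0 : ℝ)..1, (g (wr p q κ t)).re := by
  have c0 : Continuous fun t => g (wr p q κ t) := hg.comp_continuous (wr_Wr Pq κ).cont fun t =>
    Wf_mem Pq (Wr_im κ t)
  have e : ∀ x : ℝ, g (Wf p q ((2 * Real.cos (π * x) - κ : ℝ) : ℂ)) = g (wr p q κ (x / 2)) := by
    intro x
    unfold wr
    rw [show 2 * π * (x / 2) = π * x by ring]
  simp only [e]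
  have c1 : Continuous fun x : ℝ => g (wr p q κ (x / 2)) := c0.comp (continuous_id.div_const 2)
  have h8 := Complex.reCLM.intervalIntegral_comp_comm (c1.intervalIntegrable (μ := volume) 0 1)
  simp only [Complex.reCLM_apply] at h8
  rw [← h8]
  exact fold (f := fun t => (g (wr p q κ t)).re) (continuous_re.comp c0) fun t => by rw [wr_symm]

/-- the moments, complex -/
noncomputable def mu (p q κ : ℝ) (m : ℕ) : ℂ :=
  ∫ x in (0 : ℝ)..1, Wf p q ((2 * Real.cos (π * x) - κ : ℝ) : ℂ) ^ m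

theorem mu_re (κ : ℝ) (m : ℕ) : (mu p q κ m).re = pm (wr p q κ) m :=
  fold_wr Pq (g := fun w => w ^ m) (continuous_pow m).continuousOn

/-- the path -/
structure Pth (p q κ η : ℝ) (w l : ℝ → ℂ) : Prop where
  par : Par p q
  cont : Continuous w
  le : ∀ t, ‖w t‖ ≤ 1
  lt : ∀ t, Real.sin (2 * π * t) ≠ 0 → ‖w t‖ < 1
  eq : ∀ t, ff p q (w t) = Wp η t - κ
  ne : ∀ t, DD p q (w t) ≠ 0
  ne0 : ∀ t, w t ≠ 0
  contl : Continuous l
  exp : ∀ t, Complex.exp (l t) = w t
  symm : ∀ t, w (1 - t) = w t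
  per : ∀ t, w (t + 1) = w t
  symml : ∀ t, l (1 - t) = l t
  mean : (Av η l).re = lam p q (wr p q κ)

/-- the logarithm -/
noncomputable def lc (p q κ t : ℝ) : ℂ :=
  Complex.log (I * (Wp 1 t - κ)) + (-(π / 2) * I) + Complex.log (DD p q (wc p q κ t))

theorem wc_cont (κ : ℝ) : Continuous (wc p q κ) :=
  (Wf_cont Pq).comp_continuous ((contDiff_Wp 1).continuous.sub continuous_const) fun t => Wp_le t

omit Pq in
theorem wc_symm (κ t : ℝ) : wc p q κ (1 - t) = wc p q κ t := by
  unfold wc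
  rw [Wp_symm]

theorem slit_Sg {w : ℂ} (hw : w ∈ (Sg p q)) : DD p q w ∈ slitPlane :=
  DD_slit Pq hw.1 hw.2

omit Pq in
theorem DD_conj (w : ℂ) : DD p q (conj w) = conj (DD p q w) := by
  unfold DD
  rw [map_sub, map_mul, map_mul, map_add, map_one, map_pow, Complex.conj_ofReal, Complex.conj_ofReal]

theorem cont_log_Sg : ContinuousOn (fun w : ℂ => Complex.log (DD p q w)) (Sg p q) := by
  intro w hw
  have h : ContinuousAt (fun w : ℂ => DD p q w) w := DD_cont.continuousAt
  exact (h.clog (slit_Sg Pq hw)).continuousWithinAt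

variable {α : ℝ} (hκ : κ = 2 * Real.cos α) (hα : Real.sin α ≠ 0)

include hκ hα

theorem lc_cont : Continuous (lc p q κ) := by
  have h1 : Continuous fun t => Complex.log (I * (Wp 1 t - κ)) :=
    Continuous.clog (continuous_const.mul ((contDiff_Wp 1).continuous.sub continuous_const))
      (slit_Wp hκ hα)
  have h2 : Continuous fun t => Complex.log (DD p q (wc p q κ t)) :=
    (cont_log_Sg Pq).comp_continuous (wc_cont Pq κ) fun t => Wf_mem Pq (Wp_le t)
  exact (h1.add continuous_const).add h2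

theorem exp_lc (t : ℝ) : Complex.exp (lc p q κ t) = wc p q κ t := by
  unfold lc
  have h1 : DD p q (wc p q κ t) ≠ 0 := DD_ne Pq (Wp_le t)
  have h2 : I * (Wp 1 t - κ) ≠ 0 := mul_ne_zero I_ne_zero (Wp_ne hκ hα t)
  have h3 : Complex.exp (-(π / 2) * I) = -I := by
    rw [neg_mul, Complex.exp_neg, Complex.exp_pi_div_two_mul_I, Complex.inv_I]
  rw [Complex.exp_add, Complex.exp_add, Complex.exp_log h1, Complex.exp_log h2, h3]
  have h4 : wc p q κ t = (Wp 1 t - κ) * (DD p q (wc p q κ t)) := Wf_eq Pq (Wp_le t)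
  have h5 : I * I = -1 := I_mul_I
  calc I * (Wp 1 t - κ) * -I * (DD p q (wc p q κ t)) = -(I * I) * ((Wp 1 t - κ) * (DD p q (wc p q κ t))) := by ring
    _ = wc p q κ t := by rw [h5, ← h4]; ring

theorem mean_lc : (Av 1 (lc p q κ)).re = lam p q (wr p q κ) := by
  have c1 : Continuous fun t => Complex.log (I * (Wp 1 t - κ)) :=
    Continuous.clog (continuous_const.mul ((contDiff_Wp 1).continuous.sub continuous_const))
      (slit_Wp hκ hα)
  have c2 : Continuous fun t => Complex.log (DD p q (wc p q κ t)) :=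
    (cont_log_Sg Pq).comp_continuous (wc_cont Pq κ) fun t => Wf_mem Pq (Wp_le t)
  have e : Av 1 (lc p q κ) = Av 1 (fun t => Complex.log (I * (Wp 1 t - κ))) + (-(π / 2) * I) +
      Av 1 (fun t => Complex.log (DD p q (wc p q κ t))) := by
    unfold Av lc
    simp only [add_mul]
    rw [intervalIntegral.integral_add, intervalIntegral.integral_add,
      intervalIntegral.integral_const_mul, int_dth]
    · have hπ : (π : ℂ) ≠ 0 := by exact_mod_cast Real.pi_ne_zero
      field_simp
    · exact (c1.mul (continuous_dth 1)).intervalIntegrable _ _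
    · exact (continuous_const.mul (continuous_dth 1)).intervalIntegrable _ _
    · exact ((c1.mul (continuous_dth 1)).add (continuous_const.mul (continuous_dth 1))).intervalIntegrable _ _
    · exact (c2.mul (continuous_dth 1)).intervalIntegrable _ _
  have e1 : (Av 1 (fun t => Complex.log (I * (Wp 1 t - κ)))).re = 0 := by
    have n1 : NZ fun t => Wp 1 t - κ :=
      ⟨(contDiff_Wp 1).sub contDiff_const, fun t => Wp_ne hκ hα t⟩
    have n2 : NZ fun t => I * (Wp 1 t - κ) := (nz_const I_ne_zero).mul n1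
    have h := pr_even (η := 1) (v := fun t => I * (Wp 1 t - κ)) (L := fun t => Complex.log (I * (Wp 1 t - κ)))
      n2 c1 (fun t => Complex.exp_log (n2.ne_zero t)) fun t => by rw [Wp_symm]
    have h2 : pr (Zp 1) (fun t => I * (Wp 1 t - κ)) = 0 := by
      rw [pr_mul (nz_Zp 1) (nz_const I_ne_zero) n1, pr_unit (by simp), zero_add]
      have h3 := pr_Wp (η := 1) one_ne_zero hα
      have e3 : (fun t => Wp 1 t - (κ : ℂ)) = fun t => Wp 1 t - 2 * Real.cos α := by
        funext t
        rw [hκ]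
        push_cast
        ring
      rw [e3]
      exact h3
    rw [h2] at h
    have hπ := Real.pi_ne_zero
    have h4 : -(2 * π) ≠ 0 := neg_ne_zero.2 (mul_ne_zero two_ne_zero hπ)
    exact (mul_eq_zero.1 h.symm).resolve_left h4
  have e2 : ((-(π / 2) * I : ℂ)).re = 0 := by
    have : (-(π / 2) * I : ℂ) = ((-(π / 2) : ℝ) : ℂ) * I := by push_cast; ring
    rw [this, re_ofReal_mul, I_re, mul_zero]
  have e3 : (Av 1 (fun t => Complex.log (DD p q (wc p q κ t)))).re = lam p q (wr p q κ) := by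
    rw [Av_wc Pq (g := fun w => Complex.log (DD p q w)) (cont_log_Sg Pq), fold_wr Pq (cont_log_Sg Pq)]
    · unfold lam
      refine intervalIntegral.integral_congr fun t _ => ?_
      exact Complex.log_re _
    · intro w hw
      have h1 : w ∈ (Sg p q) := ⟨hw.le, DD_ne' Pq hw⟩
      have h2 : DifferentiableAt ℂ (fun w : ℂ => DD p q w) w := (DD_deriv w).differentiableAt
      exact h2.clog (slit_Sg Pq h1)
  rw [e, add_re, add_re, e1, e2, e3]
  ring

theorem pth_one : Pth p q κ 1 (wc p q κ) (lc p q κ) where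
  par := Pq
  cont := wc_cont Pq κ
  le t := norm_Wf_le Pq (Wp_le t)
  lt t ht := norm_Wf_lt Pq (Wp_lt ht)
  eq t := ff_Wf Pq (Wp_le t)
  ne t := DD_ne Pq (Wp_le t)
  ne0 t := by
    rw [← exp_lc Pq hκ hα t]
    exact Complex.exp_ne_zero _
  contl := lc_cont Pq hκ hα
  exp := exp_lc Pq hκ hα
  symm := wc_symm κ
  per t := by
    unfold wc
    rw [Wp_add_one]
  symml t := by
    unfold lc
    rw [wc_symm, Wp_symm]
  mean := mean_lc Pq hκ hα

theorem pth_neg : Pth p q κ (-1) (fun t => conj (wc p q κ t)) (fun t => conj (lc p q κ t)) where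
  par := Pq
  cont := continuous_conj.comp (wc_cont Pq κ)
  le t := by
    rw [RCLike.norm_conj]
    exact norm_Wf_le Pq (Wp_le t)
  lt t ht := by
    rw [RCLike.norm_conj]
    exact norm_Wf_lt Pq (Wp_lt ht)
  eq t := by
    rw [Wp_conj]
    have h := congrArg conj ((pth_one Pq hκ hα).eq t)
    rw [map_sub, Complex.conj_ofReal] at h
    rw [← h]
    unfold ff
    rw [map_div₀, DD_conj]
  ne t h := by
    have h1 := congrArg conj h
    rw [← DD_conj, Complex.conj_conj, map_zero] at h1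
    exact (pth_one Pq hκ hα).ne t h1
  ne0 t h := by
    rw [map_eq_zero] at h
    exact (pth_one Pq hκ hα).ne0 t h
  contl := continuous_conj.comp (lc_cont Pq hκ hα)
  exp t := by
    rw [Complex.exp_conj, exp_lc Pq hκ hα]
  symm t := by rw [wc_symm]
  per t := by rw [(pth_one Pq hκ hα).per]
  symml t := by rw [(pth_one Pq hκ hα).symml]
  mean := by
    rw [Av_conj (lc_cont Pq hκ hα), conj_re]
    exact mean_lc Pq hκ hα

omit hκ hα in
theorem mom_one (m : ℕ) : Av 1 (fun t => wc p q κ t ^ m) = mu p q κ m :=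
  Av_wc Pq (g := fun w => w ^ m) (continuous_pow m).continuousOn fun w _ => by fun_prop

omit hκ hα in
theorem mom_neg (m : ℕ) : Av (-1) (fun t => (conj (wc p q κ t)) ^ m) = conj (mu p q κ m) := by
  have h := Av_conj (L := fun t => wc p q κ t ^ m) ((wc_cont Pq κ).pow m)
  rw [← mom_one Pq, ← h]
  simp only [map_pow]

end Pool.Agent.N686.RS
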