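import Pool.Agent.N686.RS.Form2
import Pool.Agent.N686.RR.Rank
import Pool.Agent.N686.PF.Lin
import Pool.Agent.TH826.UH.Tor
set_option autoImplicit false

/-!
The rank of the regulators.
-/

namespace Pool.Agent.N686.RS

open Set Filter Topology Complex MeasureTheory Polynomial

open Pool.Agent.N76.EC (th Wp Zp Zp_add_inv Zp_ne_zero Zp_add_one nz_Zp)

open Pool.Agent.TH826.MK (Torus symb circ)

open Pool.Agent.TH826.HD (PRing POpen pent toP pcst pDel)

open Pool.Agent.TH826.UH (PtS mkS mkS_e mkS_reg pr NZ)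

open scoped Real ComplexConjugate

open Pool.Agent.N686.RR (prod_roots)

/-- the loops -/
theorem exists_torus {K : Type*} [Field K] {s : K →+* ℂ} {F : K[X]} {n : ℕ} {p q κ η : ℝ} {w l : ℝ → ℂ}
    (P : Pth p q κ η w l) {b : Fin n → K} {Φ : Fin n → ℂ → ℂ} {E : Fin n → ℝ × ℝ → ℂ}
    (B : Br p q (F.map s) κ (fun i => s (b i)) Φ) (S : Sq p q (F.map s) κ (fun i => s (b i)) Φ w E)
    {m : ℂ} (hprod : ∀ x : ℂ, (F.map s).eval x - κ = m * ∏ i, (x - s (b i))) (k : Fin n) :
    ∃ Γ : Torus (POpen F b) 1, (∀ t (y : K), Γ.e t (pcst F b y) = s y) ∧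
      ∀ i j, Γ.reg (symb (pent F b i j)) =
        -(2 * π) * (RR.Sq.rg η E (fun i => s (b i)) k i - RR.Sq.rg η E (fun i => s (b i)) k j) := by
  have heq : ∀ t, Zp η t ^ 2 - F.eval₂ s (E k (1, t)) * Zp η t + 1 = 0 := by
    intro t
    rw [← eval_map, S.one_ev P]
    have h1 : Zp η t * (Zp η t)⁻¹ = 1 := mul_inv_cancel₀ (Zp_ne_zero η t)
    rw [← Zp_add_inv]
    linear_combination -h1
  have hP : ∀ t, PtS s F b (E k (1, t)) (Zp η t) := fun t =>
    ⟨heq t, fun i => sub_ne_zero.1 (S.one_ne P B hprod k i t)⟩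
  refine ⟨mkS (S.one_smooth P B k) (nz_Zp η).smooth (S.one_per P k) (Zp_add_one η) hP,
    fun t y => ?_, fun i j => ?_⟩
  · rw [mkS_e, PtS.evA_pcst]
  · rw [mkS_reg (S.one_smooth P B k) (nz_Zp η)]
    unfold RR.Sq.rg
    have hπ := Real.pi_ne_zero
    field_simp
    ring

/-- **Full rank.** -/
theorem exists_regs {g : ℕ} {K : Type*} [Field K] {s : K →+* ℂ} {F : K[X]}
    (hdeg : F.natDegree = g + 1) {p q κ α : ℝ} (Pq : Par p q) (hκ : κ = 2 * Real.cos (2 * π * α)) (hα0 : 0 < α)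
    (hα1 : α < 1 / 2) (hG : CvR p q (F.map s) κ)
    (hlam : lam p q (wr p q κ) / 2 + 1 / 4 * Real.log ((p + q) / 4) < 0) (b : Fin (g + 1) → K) (hb : Function.Injective b)
    (hbv : ∀ i, (F.map s).eval (s (b i)) = κ) :
    ∃ Γ : Fin g → Torus (POpen F b) 1, (∀ l θ (y : K), (Γ l).e θ (pcst F b y) = s y) ∧
      (Matrix.of fun l k : Fin g => (Γ l).reg (symb (pent F b k.succ 0))).det ≠ 0 := by
  classical
  have hπ := Real.pi_pos
  have hsin : Real.sin (2 * π * α) ≠ 0 :=
    (Real.sin_pos_of_pos_of_lt_pi (by positivity) (by nlinarith)).ne'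
  set b' : Fin (g + 1) → ℂ := fun i => s (b i) with hb'
  have hinj : Function.Injective b' := s.injective.comp hb
  obtain ⟨Φ, B⟩ := exists_Br Pq hG hinj hbv
  have hdeg' : (F.map s).natDegree = g + 1 := by rw [natDegree_map, hdeg]
  obtain ⟨m, hm, hprod⟩ := prod_roots hdeg' hinj hbv
  have P₁ := pth_one Pq hκ hsin
  have P₂ := pth_neg Pq hκ hsin
  obtain ⟨F₁, S₁⟩ := exists_Sq P₁ B
  obtain ⟨F₂, S₂⟩ := exists_Sq P₂ B
  have hform := form_le Pq hκ hsin B hm hprod S₁ S₂
  set r : Bool → Fin (g + 1) → Fin (g + 1) → ℝ := fun x i j =>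
    if x then RR.Sq.rg 1 F₁ b' i j else RR.Sq.rg (-1) F₂ b' i j with hr
  have hT : ∀ x : Bool × Fin (g + 1), ∃ Γ : Torus (POpen F b) 1,
      (∀ t (y : K), Γ.e t (pcst F b y) = s y) ∧
      ∀ i j, Γ.reg (symb (pent F b i j)) = -(2 * π) * (r x.1 x.2 i - r x.1 x.2 j) := by
    rintro ⟨x, k⟩
    cases x
    · simp only [hr, Bool.false_eq_true, if_false]
      exact exists_torus P₂ B S₂ hprod k
    · simp only [hr, if_true]
      exact exists_torus P₁ B S₁ hprod k
  choose Γ hΓ1 hΓ2 using hT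
  obtain ⟨β, hβ⟩ := Pool.Agent.N686.PF.exists_det
    (fun (x : Bool × Fin (g + 1)) (l : Fin g) => r x.1 x.2 l.succ - r x.1 x.2 0) (fun y hy => by
      set c : Fin (g + 1) → ℝ := Fin.cons (-∑ l, y l) y with hc
      have hc0 : c 0 = -∑ l, y l := rfl
      have hcs : ∀ l, c l.succ = y l := fun l => rfl
      have hsum : ∑ i, c i = 0 := by
        rw [Fin.sum_univ_succ, hc0]
        simp only [hcs]
        ring
      have hrow : ∀ x i, ∑ j, c j * r x i j = 0 := by
        intro x i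
        have h1 := hy (x, i)
        rw [Fin.sum_univ_succ, hc0]
        simp only [hcs]
        simp only [mul_sub, Finset.sum_sub_distrib] at h1
        rw [← Finset.sum_mul] at h1
        linarith
      have h2 := hform c hsum
      have h3 : ∑ i, ∑ j, c i * c j * ((RR.Sq.rg 1 F₁ b' i j + RR.Sq.rg (-1) F₂ b' i j) / 2) = 0 := by
        refine Finset.sum_eq_zero fun i _ => ?_
        have h4 := hrow true i
        have h5 := hrow false i
        simp only [hr, if_true, Bool.false_eq_true, if_false] at h4 h5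
        have h6 : ∑ j, c i * c j * ((RR.Sq.rg 1 F₁ b' i j + RR.Sq.rg (-1) F₂ b' i j) / 2) =
            c i / 2 * (∑ j, c j * RR.Sq.rg 1 F₁ b' i j + ∑ j, c j * RR.Sq.rg (-1) F₂ b' i j) := by
          rw [← Finset.sum_add_distrib, Finset.mul_sum]
          exact Finset.sum_congr rfl fun j _ => by ring
        rw [h6, h4, h5]
        ring
      rw [h3] at h2
      have h7 := hlam
      have h8 : 0 ≤ ∑ i, c i ^ 2 := Finset.sum_nonneg fun i _ => sq_nonneg _
      have h9 : ∑ i, c i ^ 2 = 0 := by nlinarith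
      funext l
      have h10 := (Finset.sum_eq_zero_iff_of_nonneg fun i _ => sq_nonneg (c i)).1 h9 l.succ
        (Finset.mem_univ _)
      rw [hcs] at h10
      exact pow_eq_zero_iff (two_ne_zero) |>.1 h10)
  refine ⟨fun l => Γ (β l), fun l => hΓ1 _, ?_⟩
  have e : (Matrix.of fun l k : Fin g => (Γ (β l)).reg (symb (pent F b k.succ 0))) =
      (-(2 * π)) • (Matrix.of fun l k : Fin g =>
        r (β k).1 (β k).2 l.succ - r (β k).1 (β k).2 0).transpose := by
    ext l k
    rw [Matrix.of_apply, hΓ2, Matrix.smul_apply, Matrix.transpose_apply, Matrix.of_apply,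
      smul_eq_mul]
  rw [e, Matrix.det_smul, Matrix.det_transpose]
  exact mul_ne_zero (pow_ne_zero _ (neg_ne_zero.2 (by positivity))) hβ

end Pool.Agent.N686.RS
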