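import Pool.Agent.N686.RS.Slit
import Pool.Agent.N686.RR.Sb
set_option autoImplicit false

/-!
The bound for the sum of the squares of the moments.
-/

namespace Pool.Agent.N686.RS

open Set Filter Topology Complex MeasureTheory

open Pool.Agent.TH826.MK (circ norm_circ)

open Pool.Agent.N686.EL (lg circ_one_neg circ_add ae_shift ii_one int_sub_one int_add_one
  intervalIntegrable_lg_one ae_circ_ne_one lg_add_one)

open Pool.Agent.N686.RR (pm KK one_sub_ne hasSum_log hasSum_int norm_mul_le_one norm_mul_conj_le_one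
  re_pow_mul norm_cos_sub norm_one_sub_mul norm_one_sub)

open scoped Real ComplexConjugate

/-- the function `w` on the segment -/
structure Wr (p q κ : ℝ) (w : ℝ → ℂ) : Prop where
  par : Par p q
  cont : Continuous w
  le : ∀ t, ‖w t‖ ≤ 1
  ne : ∀ t, DD p q (w t) ≠ 0
  eq : ∀ t, ff p q (w t) = ((2 * Real.cos (2 * π * t) - κ : ℝ) : ℂ)

noncomputable def lam (p q : ℝ) (w : ℝ → ℂ) : ℝ := ∫ t in (0 : ℝ)..1, Real.log ‖DD p q (w t)‖

variable {p q : ℝ} {κ : ℝ} {w : ℝ → ℂ} (H : Wr p q κ w) {r : ℝ} (hr0 : 0 < r) (hr1 : r < 1)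

include H

theorem abs_pow_re_le (m : ℕ) (t : ℝ) : |(w t ^ m).re| ≤ 1 := by
  refine (Complex.abs_re_le_norm _).trans ?_
  rw [norm_pow]
  exact pow_le_one₀ (norm_nonneg _) (H.le t)

theorem cont_pow_re (m : ℕ) : Continuous fun t => (w t ^ m).re :=
  Complex.continuous_re.comp (H.cont.pow m)

theorem abs_pm_le (m : ℕ) : |pm w m| ≤ 1 := by
  unfold pm
  have h := intervalIntegral.norm_integral_le_of_norm_le_const (a := (0 : ℝ)) (b := 1) (C := 1)
    (f := fun t => (w t ^ m).re) fun t _ => abs_pow_re_le H m t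
  simpa using h

include hr0 hr1

theorem cont_KK (t : ℝ) : Continuous fun s => KK r w t s := by
  have h1 : ∀ s, 1 - (r : ℂ) * (w t * w s) ≠ 0 := fun s =>
    one_sub_ne hr0.le hr1 (norm_mul_le_one (H.le t) (H.le s))
  have h2 : ∀ s, 1 - (r : ℂ) * (w t * conj (w s)) ≠ 0 := fun s =>
    one_sub_ne hr0.le hr1 (norm_mul_conj_le_one (H.le t) (H.le s))
  have hc := H.cont
  have hcc : Continuous fun s => conj (w s) := Complex.continuous_conj.comp hc
  unfold KK
  refine (Continuous.log ?_ fun s => norm_ne_zero_iff.2 (h1 s)).add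
    (Continuous.log ?_ fun s => norm_ne_zero_iff.2 (h2 s))
  · exact (continuous_const.sub (continuous_const.mul (continuous_const.mul hc))).norm
  · exact (continuous_const.sub (continuous_const.mul (continuous_const.mul hcc))).norm

theorem cont_KK2 : Continuous (Function.uncurry fun t s => KK r w t s) := by
  have h1 : ∀ p : ℝ × ℝ, 1 - (r : ℂ) * (w p.1 * w p.2) ≠ 0 := fun p =>
    one_sub_ne hr0.le hr1 (norm_mul_le_one (H.le p.1) (H.le p.2))
  have h2 : ∀ p : ℝ × ℝ, 1 - (r : ℂ) * (w p.1 * conj (w p.2)) ≠ 0 := fun p =>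
    one_sub_ne hr0.le hr1 (norm_mul_conj_le_one (H.le p.1) (H.le p.2))
  have hc1 : Continuous fun p : ℝ × ℝ => w p.1 := H.cont.comp continuous_fst
  have hc2 : Continuous fun p : ℝ × ℝ => w p.2 := H.cont.comp continuous_snd
  have hcc : Continuous fun p : ℝ × ℝ => conj (w p.2) := Complex.continuous_conj.comp hc2
  have e : (Function.uncurry fun t s => KK r w t s) = fun p : ℝ × ℝ =>
      Real.log ‖1 - r * (w p.1 * w p.2)‖ + Real.log ‖1 - r * (w p.1 * conj (w p.2))‖ := rfl
  rw [e]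
  refine (Continuous.log ?_ fun s => norm_ne_zero_iff.2 (h1 s)).add
    (Continuous.log ?_ fun s => norm_ne_zero_iff.2 (h2 s))
  · exact (continuous_const.sub (continuous_const.mul (hc1.mul hc2))).norm
  · exact (continuous_const.sub (continuous_const.mul (hc1.mul hcc))).norm

theorem cont_int_KK : Continuous fun t => ∫ s in (0 : ℝ)..1, KK r w t s :=
  intervalIntegral.continuous_parametric_intervalIntegral_of_continuous' (μ := volume)
    (cont_KK2 H hr0 hr1) 0 1

omit H in
theorem pow_div_le (m : ℕ) : 0 ≤ r ^ m / m ∧ r ^ m / m ≤ r ^ m := by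
  refine ⟨by positivity, ?_⟩
  rcases Nat.eq_zero_or_pos m with hj | hj
  · subst hj
    simp
  · refine div_le_self (pow_nonneg hr0.le m) ?_
    exact_mod_cast hj

theorem hasSum_one (t : ℝ) : HasSum (fun m : ℕ => r ^ m / m * (w t ^ m).re * pm w m)
    (∫ s in (0 : ℝ)..1, -(1 / 2) * KK r w t s) := by
  have h1 := hasSum_int (F := fun m s => r ^ m / m * (w t ^ m).re * (w s ^ m).re)
    (fun m => continuous_const.mul (cont_pow_re H m)) hr0.le hr1 (fun m s => by
      have h2 := pow_div_le hr0 hr1 m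
      rw [abs_mul, abs_mul, abs_of_nonneg h2.1]
      have h3 := abs_pow_re_le H m t
      have h4 := abs_pow_re_le H m s
      calc r ^ m / m * |(w t ^ m).re| * |(w s ^ m).re| ≤ r ^ m / m * 1 * 1 := by
            refine mul_le_mul (mul_le_mul_of_nonneg_left h3 h2.1) h4 (abs_nonneg _) ?_
            rw [mul_one]
            exact h2.1
        _ ≤ r ^ m := by rw [mul_one, mul_one]; exact h2.2)
    (G := fun s => -(1 / 2) * KK r w t s) (fun s => by
      have h5 := (hasSum_log hr0.le hr1 (norm_mul_le_one (H.le t) (H.le s))).add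
        (hasSum_log hr0.le hr1 (norm_mul_conj_le_one (H.le t) (H.le s)))
      have h6 := h5.mul_left (1 / 2)
      have e1 : (fun m : ℕ => r ^ m / m * (w t ^ m).re * (w s ^ m).re) = fun i : ℕ =>
          1 / 2 * (r ^ i / i * ((w t * w s) ^ i).re + r ^ i / i * ((w t * conj (w s)) ^ i).re) := by
        funext m
        rw [mul_assoc, re_pow_mul]
        ring
      have e2 : -(1 / 2) * KK r w t s = 1 / 2 * (-Real.log ‖1 - (r : ℂ) * (w t * w s)‖ +
          -Real.log ‖1 - (r : ℂ) * (w t * conj (w s))‖) := by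
        unfold KK
        ring
      rw [e1, e2]
      exact h6)
  convert h1 using 1
  funext m
  rw [intervalIntegral.integral_const_mul]
  rfl

theorem hasSum_two : HasSum (fun m : ℕ => r ^ m / m * pm w m ^ 2)
    (∫ t in (0 : ℝ)..1, ∫ s in (0 : ℝ)..1, -(1 / 2) * KK r w t s) := by
  have h1 := hasSum_int (F := fun m t => r ^ m / m * (w t ^ m).re * pm w m)
    (fun m => (continuous_const.mul (cont_pow_re H m)).mul continuous_const) hr0.le hr1 (fun m t => by
      have h2 := pow_div_le hr0 hr1 m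
      rw [abs_mul, abs_mul, abs_of_nonneg h2.1]
      have h3 := abs_pow_re_le H m t
      have h4 := abs_pm_le H m
      calc r ^ m / m * |(w t ^ m).re| * |pm w m| ≤ r ^ m / m * 1 * 1 := by
            refine mul_le_mul (mul_le_mul_of_nonneg_left h3 h2.1) h4 (abs_nonneg _) ?_
            rw [mul_one]
            exact h2.1
        _ ≤ r ^ m := by rw [mul_one, mul_one]; exact h2.2)
    (G := fun t => ∫ s in (0 : ℝ)..1, -(1 / 2) * KK r w t s) (hasSum_one H hr0 hr1)
  convert h1 using 1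
  funext m
  have e : ∀ t, r ^ m / m * (w t ^ m).re * pm w m = r ^ m / m * pm w m * (w t ^ m).re := fun t => by
    ring
  simp only [e]
  rw [intervalIntegral.integral_const_mul]
  unfold pm
  ring

/-- the pointwise bound -/
theorem KK_ge {t s : ℝ} (h1 : circ 1 (t - s) ≠ 1) (h2 : circ 1 (s + t) ≠ 1) :
    Real.log (Real.sqrt r * ((1 + r) / 2) / ((p + q) / 4)) + (lg 1 (t - s) + lg 1 (s + t)) +
      Real.log ‖DD p q (w t)‖ + Real.log ‖DD p q (w s)‖ ≤ KK r w t s := by
  have hsr : 0 < Real.sqrt r := Real.sqrt_pos.2 hr0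
  have p1 : 0 < ‖1 - circ 1 (t - s)‖ := norm_pos_iff.2 (sub_ne_zero.2 h1.symm)
  have p2 : 0 < ‖1 - circ 1 (s + t)‖ := norm_pos_iff.2 (sub_ne_zero.2 h2.symm)
  have p3 : 0 < ‖DD p q (w t)‖ := norm_pos_iff.2 (H.ne t)
  have p4 : 0 < ‖DD p q (w s)‖ := norm_pos_iff.2 (H.ne s)
  have hα : 0 < (p + q) / 4 := by
    have := H.par.pos
    positivity
  have e1 : ‖1 - circ 1 (t - s)‖ * ‖1 - circ 1 (s + t)‖ * (‖DD p q (w t)‖ * ‖DD p q (w s)‖) =
      (p + q) / 4 * (‖w t - w s‖ * ‖1 - w t * w s‖) := by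
    have h : ‖ff p q (w t) - ff p q (w s)‖ * (‖DD p q (w t)‖ * ‖DD p q (w s)‖) =
        (p + q) / 4 * (‖w t - w s‖ * ‖1 - w t * w s‖) := by
      rw [← norm_mul, ← norm_mul, ff_sub (H.ne t) (H.ne s), norm_mul, norm_mul, Complex.norm_real,
        Real.norm_eq_abs, abs_of_pos hα]
    rw [H.eq, H.eq, ← Complex.ofReal_sub, Complex.norm_real, Real.norm_eq_abs] at h
    have e2 : 2 * Real.cos (2 * π * t) - κ - (2 * Real.cos (2 * π * s) - κ) =
        2 * Real.cos (2 * π * t) - 2 * Real.cos (2 * π * s) := by ring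
    rw [e2, norm_cos_sub] at h
    exact h
  have q1 := norm_one_sub_mul hr0.le hr1.le (H.le t) (H.le s)
  have q2 := norm_one_sub hr0.le hr1.le (norm_mul_le_one (H.le t) (H.le s))
  have pos1 : 0 < ‖1 - (r : ℂ) * (w t * w s)‖ := norm_pos_iff.2
    (one_sub_ne hr0.le hr1 (norm_mul_le_one (H.le t) (H.le s)))
  have pos2 : 0 < ‖1 - (r : ℂ) * (w t * conj (w s))‖ := norm_pos_iff.2
    (one_sub_ne hr0.le hr1 (norm_mul_conj_le_one (H.le t) (H.le s)))
  have l1 : lg 1 (t - s) = Real.log ‖1 - circ 1 (t - s)‖ := by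
    unfold lg
    rw [Complex.ofReal_one, one_mul]
  have l2 : lg 1 (s + t) = Real.log ‖1 - circ 1 (s + t)‖ := by
    unfold lg
    rw [Complex.ofReal_one, one_mul]
  unfold KK
  rw [l1, l2, ← Real.log_mul p1.ne' p2.ne', ← Real.log_mul (by positivity) (by positivity),
    ← Real.log_mul (by positivity) p3.ne', ← Real.log_mul (by positivity) p4.ne',
    ← Real.log_mul pos1.ne' pos2.ne']
  refine Real.log_le_log (by positivity) ?_
  calc Real.sqrt r * ((1 + r) / 2) / ((p + q) / 4) * (‖1 - circ 1 (t - s)‖ * ‖1 - circ 1 (s + t)‖) *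
        ‖DD p q (w t)‖ * ‖DD p q (w s)‖ =
        Real.sqrt r * ((1 + r) / 2) / ((p + q) / 4) * (‖1 - circ 1 (t - s)‖ * ‖1 - circ 1 (s + t)‖ *
        (‖DD p q (w t)‖ * ‖DD p q (w s)‖)) := by ring
    _ = Real.sqrt r * ((1 + r) / 2) / ((p + q) / 4) * ((p + q) / 4 *
        (‖w t - w s‖ * ‖1 - w t * w s‖)) := by rw [e1]
    _ = ((1 + r) / 2 * ‖1 - w t * w s‖) * (Real.sqrt r * ‖w t - w s‖) := by
        have := hα.ne'
        rw [div_mul_eq_mul_div, mul_left_comm, mul_div_cancel_left₀ _ this]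
        ring
    _ ≤ _ := mul_le_mul q2 q1 (by positivity) pos1.le

omit hr0 hr1 in
theorem cont_log_one : Continuous fun t => Real.log ‖DD p q (w t)‖ :=
  Continuous.log (DD_cont.comp H.cont).norm fun t => norm_ne_zero_iff.2 (H.ne t)

theorem int_KK_ge (t : ℝ) : Real.log (Real.sqrt r * ((1 + r) / 2) / ((p + q) / 4)) + Real.log ‖DD p q (w t)‖ + lam p q w ≤
    ∫ s in (0 : ℝ)..1, KK r w t s := by
  have i1 : IntervalIntegrable (fun s => lg 1 (t - s)) volume 0 1 := ii_one t
  have i2 : IntervalIntegrable (fun s => lg 1 (s + t)) volume 0 1 := by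
    have h := (intervalIntegrable_lg_one (0 + t) (1 + t)).comp_add_right t
    simpa using h
  have i3 : IntervalIntegrable (fun s => Real.log ‖DD p q (w s)‖) volume 0 1 :=
    (cont_log_one H).intervalIntegrable _ _
  have h1 : ∫ s in (0 : ℝ)..1, (Real.log (Real.sqrt r * ((1 + r) / 2) / ((p + q) / 4)) +
      (lg 1 (t - s) + lg 1 (s + t)) + Real.log ‖DD p q (w t)‖ + Real.log ‖DD p q (w s)‖) =
      Real.log (Real.sqrt r * ((1 + r) / 2) / ((p + q) / 4)) + Real.log ‖DD p q (w t)‖ + lam p q w := by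
    rw [intervalIntegral.integral_add ((intervalIntegrable_const.add (i1.add i2)).add
      intervalIntegrable_const) i3, intervalIntegral.integral_add
      (intervalIntegrable_const.add (i1.add i2)) intervalIntegrable_const,
      intervalIntegral.integral_add intervalIntegrable_const (i1.add i2),
      intervalIntegral.integral_add i1 i2, int_sub_one zero_le_one le_rfl,
      int_add_one zero_le_one le_rfl]
    simp only [intervalIntegral.integral_const, sub_zero, one_smul, add_zero]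
    rfl
  rw [← h1]
  refine intervalIntegral.integral_mono_ae zero_le_one
    (((intervalIntegrable_const.add (i1.add i2)).add intervalIntegrable_const).add i3)
    ((cont_KK H hr0 hr1 t).intervalIntegrable _ _) ?_
  have h2 : ∀ᵐ s : ℝ, circ 1 (s + t) ≠ 1 :=
    (quasiMeasurePreserving_add_right volume t).ae ae_circ_ne_one
  filter_upwards [ae_shift t, h2] with s hs1 hs2
  exact KK_ge H hr0 hr1 hs1 hs2

theorem int_int_KK_ge : Real.log (Real.sqrt r * ((1 + r) / 2) / ((p + q) / 4)) + 2 * lam p q w ≤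
    ∫ t in (0 : ℝ)..1, ∫ s in (0 : ℝ)..1, KK r w t s := by
  have i3 : IntervalIntegrable (fun s => Real.log ‖DD p q (w s)‖) volume 0 1 :=
    (cont_log_one H).intervalIntegrable _ _
  have h1 : ∫ t in (0 : ℝ)..1, (Real.log (Real.sqrt r * ((1 + r) / 2) / ((p + q) / 4)) + Real.log ‖DD p q (w t)‖ +
      lam p q w) = Real.log (Real.sqrt r * ((1 + r) / 2) / ((p + q) / 4)) + 2 * lam p q w := by
    rw [intervalIntegral.integral_add (intervalIntegrable_const.add i3) intervalIntegrable_const,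
      intervalIntegral.integral_add intervalIntegrable_const i3]
    simp only [intervalIntegral.integral_const, sub_zero, one_smul]
    have : ∫ t in (0 : ℝ)..1, Real.log ‖DD p q (w t)‖ = lam p q w := rfl
    rw [this]
    ring
  rw [← h1]
  refine intervalIntegral.integral_mono_on zero_le_one
    ((intervalIntegrable_const.add i3).add intervalIntegrable_const)
    ((cont_int_KK H hr0 hr1).intervalIntegrable _ _) fun t _ => int_KK_ge H hr0 hr1 t

theorem sum_le_r (M : ℕ) : ∑ m ∈ Finset.Icc 1 M, r ^ m / m * pm w m ^ 2 ≤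
    -(1 / 2) * (Real.log (Real.sqrt r * ((1 + r) / 2) / ((p + q) / 4)) + 2 * lam p q w) := by
  have h1 := hasSum_two H hr0 hr1
  have h2 : ∑ m ∈ Finset.Icc 1 M, r ^ m / m * pm w m ^ 2 ≤
      ∫ t in (0 : ℝ)..1, ∫ s in (0 : ℝ)..1, -(1 / 2) * KK r w t s :=
    sum_le_hasSum _ (fun m _ => mul_nonneg (pow_div_le hr0 hr1 m).1 (sq_nonneg _)) h1
  refine h2.trans ?_
  simp only [intervalIntegral.integral_const_mul]
  have h3 := int_int_KK_ge H hr0 hr1
  linarith

omit hr0 hr1 in
/-- **The bound** -/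
theorem sum_pm_le (M : ℕ) : ∑ m ∈ Finset.Icc 1 M, pm w m ^ 2 / m ≤
    -lam p q w + 1 / 2 * Real.log ((p + q) / 4) := by
  have hα : 0 < (p + q) / 4 := by
    have := H.par.pos
    positivity
  have h1 : Tendsto (fun r : ℝ => ∑ m ∈ Finset.Icc 1 M, r ^ m / m * pm w m ^ 2) (𝓝[<] 1)
      (𝓝 (∑ m ∈ Finset.Icc 1 M, (1 : ℝ) ^ m / m * pm w m ^ 2)) := by
    refine tendsto_nhdsWithin_of_tendsto_nhds ?_
    have : Continuous fun r : ℝ => ∑ m ∈ Finset.Icc 1 M, r ^ m / m * pm w m ^ 2 := by fun_prop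
    exact this.tendsto 1
  have h2 : Tendsto (fun r : ℝ => -(1 / 2) * (Real.log (Real.sqrt r * ((1 + r) / 2) / ((p + q) / 4)) + 2 * lam p q w))
      (𝓝[<] 1) (𝓝 (-(1 / 2) * (Real.log (Real.sqrt 1 * ((1 + 1) / 2) / ((p + q) / 4)) + 2 * lam p q w))) := by
    refine tendsto_nhdsWithin_of_tendsto_nhds ?_
    have hc : ContinuousAt (fun r : ℝ => Real.log (Real.sqrt r * ((1 + r) / 2) / ((p + q) / 4))) 1 := by
      refine ContinuousAt.log (by fun_prop) ?_
      rw [Real.sqrt_one]
      exact div_ne_zero (by norm_num) hα.ne'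
    exact ((hc.add continuousAt_const).const_mul _)
  have h3 : ∀ᶠ r : ℝ in 𝓝[<] 1, ∑ m ∈ Finset.Icc 1 M, r ^ m / m * pm w m ^ 2 ≤
      -(1 / 2) * (Real.log (Real.sqrt r * ((1 + r) / 2) / ((p + q) / 4)) + 2 * lam p q w) := by
    have h4 : Ioo (0 : ℝ) 1 ∈ 𝓝[<] (1 : ℝ) := Ioo_mem_nhdsLT zero_lt_one
    filter_upwards [h4] with r hr
    exact sum_le_r H hr.1 hr.2 M
  have h5 := le_of_tendsto_of_tendsto h1 h2 h3
  rw [Real.sqrt_one] at h5
  have e1 : Real.log (1 * ((1 + 1) / 2) / ((p + q) / 4)) = -Real.log ((p + q) / 4) := by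
    rw [← Real.log_inv]
    congr 1
    norm_num
  rw [e1] at h5
  have e2 : ∑ m ∈ Finset.Icc 1 M, pm w m ^ 2 / m = ∑ m ∈ Finset.Icc 1 M, (1 : ℝ) ^ m / m * pm w m ^ 2 :=
    Finset.sum_congr rfl fun m _ => by
      rw [one_pow]
      ring
  rw [e2]
  linarith

omit hr0 hr1 in
theorem norm_w_lt {t : ℝ} (h : -1 < p * (2 * Real.cos (2 * π * t) - κ))
    (h' : q * (2 * Real.cos (2 * π * t) - κ) < 1) : ‖w t‖ < 1 := by
  refine lt_of_le_of_ne (H.le t) fun h1 => ?_
  have h2 := H.eq t
  unfold ff at h2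
  rw [div_eq_iff (H.ne t)] at h2
  set r : ℝ := 2 * Real.cos (2 * π * t) - κ
  have hn : (w t).re ^ 2 + (w t).im ^ 2 = 1 := by
    rw [← norm_sq_eq, h1, one_pow]
  have hre := congrArg Complex.re h2
  have him := congrArg Complex.im h2
  rw [re_ofReal_mul, DD_re] at hre
  rw [im_ofReal_mul, DD_im] at him
  set x := (w t).re
  set y := (w t).im
  have key : 1 = r * ((p + q) / 2 * x - (p - q) / 2) := by
    have e : x * x + y * y = r * ((p + q) / 2 * x - (p - q) / 2) * (x ^ 2 + y ^ 2) +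
        r * ((p + q) / 4 * x * (1 - (x ^ 2 + y ^ 2))) := by
      linear_combination x * hre + y * him
    rw [hn] at e
    linear_combination e - hn
  have hx1 : -1 ≤ x := by nlinarith [sq_nonneg y]
  have hx2 : x ≤ 1 := by nlinarith [sq_nonneg y]
  have hp := H.par.p0
  have hq := H.par.q0
  rcases le_total 0 r with hr | hr
  · have h3 : (p + q) / 2 * x - (p - q) / 2 ≤ q := by nlinarith [H.par.pos]
    nlinarith [mul_le_mul_of_nonneg_left h3 hr]
  · have h3 : -p ≤ (p + q) / 2 * x - (p - q) / 2 := by nlinarith [H.par.pos]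
    nlinarith [mul_le_mul_of_nonpos_left h3 hr]

omit hr0 hr1 in
/-- the integral of `log |w|` -/
theorem lam_neg {α : ℝ} (hα : κ = 2 * Real.cos (2 * π * α)) (hα0 : 0 < α) (hα1 : α < 1 / 2) :
    lam p q w < 0 := by
  have i1 : IntervalIntegrable (fun s => lg 1 (α - s)) volume 0 1 := ii_one α
  have i2 : IntervalIntegrable (fun s => lg 1 (s + α)) volume 0 1 := by
    have h := (intervalIntegrable_lg_one (0 + α) (1 + α)).comp_add_right α
    simpa using h
  have i3 : IntervalIntegrable (fun s => Real.log ‖DD p q (w s)‖) volume 0 1 :=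
    (cont_log_one H).intervalIntegrable _ _
  have e1 : lam p q w = ∫ s in (0 : ℝ)..1, (Real.log ‖DD p q (w s)‖ + (lg 1 (α - s) + lg 1 (s + α))) := by
    rw [intervalIntegral.integral_add i3 (i1.add i2), intervalIntegral.integral_add i1 i2,
      int_sub_one zero_le_one le_rfl, int_add_one zero_le_one le_rfl, add_zero, add_zero]
    rfl
  have h2 : ∀ᵐ s : ℝ, circ 1 (s + α) ≠ 1 :=
    (quasiMeasurePreserving_add_right volume α).ae ae_circ_ne_one
  have key : ∀ᵐ s : ℝ, Real.log ‖DD p q (w s)‖ + (lg 1 (α - s) + lg 1 (s + α)) = Real.log ‖w s‖ ∧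
      w s ≠ 0 := by
    filter_upwards [ae_shift α, h2] with s hs1 hs2
    have p1 : 0 < ‖1 - circ 1 (α - s)‖ := norm_pos_iff.2 (sub_ne_zero.2 hs1.symm)
    have p2 : 0 < ‖1 - circ 1 (s + α)‖ := norm_pos_iff.2 (sub_ne_zero.2 hs2.symm)
    have p3 : 0 < ‖DD p q (w s)‖ := norm_pos_iff.2 (H.ne s)
    have l1 : lg 1 (α - s) = Real.log ‖1 - circ 1 (α - s)‖ := by
      unfold lg
      rw [Complex.ofReal_one, one_mul]
    have l2 : lg 1 (s + α) = Real.log ‖1 - circ 1 (s + α)‖ := by
      unfold lg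
      rw [Complex.ofReal_one, one_mul]
    have h3 := H.eq s
    unfold ff at h3
    rw [div_eq_iff (H.ne s)] at h3
    have h4 : ‖w s‖ = ‖1 - circ 1 (α - s)‖ * ‖1 - circ 1 (s + α)‖ * ‖DD p q (w s)‖ := by
      rw [← norm_cos_sub, abs_sub_comm, ← hα]
      conv_lhs => rw [h3]
      rw [norm_mul, Complex.norm_real, Real.norm_eq_abs]
    constructor
    · rw [l1, l2, ← Real.log_mul p1.ne' p2.ne', ← Real.log_mul p3.ne' (by positivity), h4]
      congr 1
      ring
    · rw [← norm_pos_iff, h4]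
      positivity
  rw [e1]
  have h5 := intervalIntegral.integral_lt_integral_of_ae_le_of_measure_setOf_lt_ne_zero
    (a := (0 : ℝ)) (b := 1) (μ := volume)
    (f := fun s => Real.log ‖DD p q (w s)‖ + (lg 1 (α - s) + lg 1 (s + α))) (g := fun _ => (0 : ℝ))
    zero_le_one (i3.add (i1.add i2)) intervalIntegrable_const ?_ ?_
  · simpa using h5
  · refine ae_restrict_of_ae ?_
    filter_upwards [key] with s hs
    rw [hs.1]
    exact Real.log_nonpos (norm_nonneg _) (H.le s)
  · intro h0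
    set U : Set ℝ := Ioo 0 1 ∩ ({t | -1 < p * (2 * Real.cos (2 * π * t) - κ)} ∩
      {t | q * (2 * Real.cos (2 * π * t) - κ) < 1}) with hU
    have hUo : IsOpen U := isOpen_Ioo.inter ((isOpen_lt continuous_const (by fun_prop)).inter
      (isOpen_lt (by fun_prop) continuous_const))
    have hUn : U.Nonempty := ⟨α, ⟨hα0, by linarith⟩, by
      show -1 < p * (2 * Real.cos (2 * π * α) - κ) ∧ q * (2 * Real.cos (2 * π * α) - κ) < 1
      rw [hα, sub_self, mul_zero, mul_zero]
      norm_num⟩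
    have hpos := hUo.measure_pos volume hUn
    have h6 : volume.restrict (Ioc 0 1) U = 0 := by
      refine measure_mono_null_ae ?_ h0
      have h7 := ae_restrict_of_ae (s := Ioc (0 : ℝ) 1) key
      filter_upwards [h7] with s hs hsU
      show Real.log ‖DD p q (w s)‖ + (lg 1 (α - s) + lg 1 (s + α)) < 0
      rw [hs.1]
      exact Real.log_neg (norm_pos_iff.2 hs.2) (norm_w_lt H hsU.2.1 hsU.2.2)
    rw [Measure.restrict_apply hUo.measurableSet] at h6
    have h8 : U ∩ Ioc 0 1 = U := inter_eq_left.2 fun x hx => ⟨hx.1.1, hx.1.2.le⟩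
    rw [h8] at h6
    exact hpos.ne' h6

end Pool.Agent.N686.RS
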