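import Pool.Agent.N686.RR.Slit
set_option autoImplicit false

/-!
The inverse of `w / D(w)` on the lower half plane, for the plane without two rays.
-/

namespace Pool.Agent.N686.RS

open Set Filter Topology Complex

open Pool.Agent.N686.RR (sq sq_sq sq_quad sq_cont sq_diff)

open scoped Real

/-- the parameters: the inverses of the distances of the rays from the origin -/
structure Par (p q : ℝ) : Prop where
  p0 : 0 ≤ p
  q0 : 0 ≤ q
  pos : 0 < p + q

noncomputable def pp (q : ℝ) (v : ℂ) : ℂ := RR.sq (1 - q * v)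

noncomputable def qq (p : ℝ) (v : ℂ) : ℂ := -I * RR.sq (-1 - p * v)

theorem pp_sq (q : ℝ) (v : ℂ) : pp q v ^ 2 = 1 - q * v := sq_sq _

theorem qq_sq (p : ℝ) (v : ℂ) : qq p v ^ 2 = 1 + p * v := by
  unfold qq
  rw [mul_pow, sq_sq, neg_sq, I_sq]
  ring

variable {p q : ℝ} {v : ℂ}

theorem pp_im : (1 - q * v : ℂ).im = -(q * v.im) := by
  rw [sub_im, im_ofReal_mul, one_im]
  ring

theorem qq_im : (-1 - p * v : ℂ).im = -(p * v.im) := by
  rw [sub_im, im_ofReal_mul, neg_im, one_im]
  ring

theorem pp_quad (hq : 0 ≤ q) (hv : v.im ≤ 0) : 0 ≤ (pp q v).re ∧ 0 ≤ (pp q v).im := by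
  refine sq_quad ?_
  rw [pp_im]
  nlinarith [mul_nonneg hq (neg_nonneg.2 hv)]

theorem qq_quad (hp : 0 ≤ p) (hv : v.im ≤ 0) : 0 ≤ (qq p v).re ∧ (qq p v).im ≤ 0 := by
  have h := sq_quad (z := -1 - p * v) (by
    rw [qq_im]
    nlinarith [mul_nonneg hp (neg_nonneg.2 hv)])
  unfold qq
  rw [mul_re, mul_im, neg_re, neg_im, I_re, I_im]
  constructor <;> nlinarith [h.1, h.2]

theorem aux {p q a b c e : ℝ} (hp : 0 ≤ p) (hq : 0 ≤ q) (ha : 0 ≤ a) (hb : 0 < b) (hc : 0 ≤ c)
    (he : 0 < e) (k1 : p * (a * b) = q * (c * e)) (h : c * a ≤ b * e) :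
    p * a ^ 2 + q * c ^ 2 ≤ p * b ^ 2 + q * e ^ 2 := by
  have h1 : q * c ^ 2 ≤ p * b ^ 2 := by
    have h2 : (q * c ^ 2) * e ≤ (p * b ^ 2) * e := by
      have h3 : (q * c ^ 2) * e = p * b * (c * a) := by linear_combination -c * k1
      rw [h3]
      have h4 := mul_le_mul_of_nonneg_left h (mul_nonneg hp hb.le)
      linarith
    exact le_of_mul_le_mul_right h2 he
  have h5 : p * a ^ 2 ≤ q * e ^ 2 := by
    have h2 : (p * a ^ 2) * b ≤ (q * e ^ 2) * b := by
      have h3 : (p * a ^ 2) * b = q * e * (c * a) := by linear_combination a * k1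
      rw [h3]
      have h4 := mul_le_mul_of_nonneg_left h (mul_nonneg hq he.le)
      linarith
    exact le_of_mul_le_mul_right h2 hb
  linarith

/-- `Re (q p̄) ≥ 0` -/
theorem re_nonneg (P : Par p q) (hv : v.im ≤ 0) :
    0 ≤ (qq p v).re * (pp q v).re + (qq p v).im * (pp q v).im ∧
    (v.im < 0 → 0 < (qq p v).re * (pp q v).re + (qq p v).im * (pp q v).im) := by
  have h1 := pp_quad P.q0 hv
  have h2 := qq_quad P.p0 hv
  have h3 := congrArg Complex.re (pp_sq q v)
  have h4 := congrArg Complex.im (pp_sq q v)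
  have h5 := congrArg Complex.re (qq_sq p v)
  have h6 := congrArg Complex.im (qq_sq p v)
  rw [pow_two, mul_re, sub_re, re_ofReal_mul, one_re] at h3
  rw [pow_two, mul_im, pp_im] at h4
  rw [pow_two, mul_re, add_re, re_ofReal_mul, one_re] at h5
  rw [pow_two, mul_im, add_im, im_ofReal_mul, one_im, zero_add] at h6
  set a := (pp q v).re
  set b := (pp q v).im
  set c := (qq p v).re
  set d := (qq p v).im
  have hp := P.p0
  have hq := P.q0
  have hpos := P.pos
  have k1 : p * (a * b) = q * (c * -d) := by linear_combination (p / 2) * h4 + (q / 2) * h6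
  have k2 : p * (a ^ 2 - b ^ 2) + q * (c ^ 2 - d ^ 2) = p + q := by
    linear_combination p * h3 + q * h5
  have key : d * b < 0 → c * a + d * b ≤ 0 → False := by
    intro hdb h
    have hb : 0 < b := by
      rcases h1.2.eq_or_lt with h' | h'
      · rw [← h'] at hdb
        simp at hdb
      · exact h'
    have hd : 0 < -d := by
      rcases h2.2.eq_or_lt with h' | h'
      · rw [h'] at hdb
        simp at hdb
      · linarith
    have h7 := aux hp hq h1.1 hb h2.1 hd k1 (by linarith)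
    nlinarith
  have hdb : d * b ≤ 0 := mul_nonpos_of_nonpos_of_nonneg h2.2 h1.2
  have hca : 0 ≤ c * a := mul_nonneg h2.1 h1.1
  constructor
  · by_contra hcon
    push Not at hcon
    rcases hdb.eq_or_lt with h | h
    · linarith
    · exact key h hcon.le
  · intro hv'
    by_contra hcon
    push Not at hcon
    rcases hdb.eq_or_lt with h | h
    · have h7 : c * a = 0 := by linarith
      rcases hq.eq_or_lt with hq0 | hq0
      · -- `q = 0`
        have hp0 : 0 < p := by linarith
        have h8 : c * d < 0 := by nlinarith [mul_pos hp0 (neg_pos.2 hv')]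
        have hc : c ≠ 0 := fun h' => by rw [h', zero_mul] at h8; exact lt_irrefl _ h8
        have hd : d ≠ 0 := fun h' => by rw [h', mul_zero] at h8; exact lt_irrefl _ h8
        have ha : a = 0 := (mul_eq_zero.1 h7).resolve_left hc
        have hb : b = 0 := (mul_eq_zero.1 h).resolve_left hd
        rw [ha, hb, ← hq0] at h3
        norm_num at h3
      · have h8 : 0 < a * b := by nlinarith [mul_pos hq0 (neg_pos.2 hv')]
        have ha : a ≠ 0 := fun h' => by rw [h', zero_mul] at h8; exact lt_irrefl _ h8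
        have hb : b ≠ 0 := fun h' => by rw [h', mul_zero] at h8; exact lt_irrefl _ h8
        have hc : c = 0 := (mul_eq_zero.1 h7).resolve_right ha
        have hd : d = 0 := (mul_eq_zero.1 h).resolve_right hb
        rw [hc, hd] at h5 h6
        have h9 : p * v.im = 0 := by linarith
        have h10 : p = 0 := (mul_eq_zero.1 h9).resolve_right hv'.ne
        rw [h10] at h5
        norm_num at h5
    · exact key h hcon

theorem sum_ne (P : Par p q) (hv : v.im ≤ 0) : qq p v + pp q v ≠ 0 := by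
  intro h
  have h1 := pp_quad P.q0 hv
  have h2 := qq_quad P.p0 hv
  have h3 := congrArg Complex.re h
  rw [add_re, zero_re] at h3
  have h4 : (pp q v).re = 0 := by linarith [h1.1, h2.1]
  have h5 : (qq p v).re = 0 := by linarith [h1.1, h2.1]
  have h6 : (p : ℂ) * pp q v ^ 2 + q * qq p v ^ 2 = ((p + q : ℝ) : ℂ) := by
    rw [pp_sq, qq_sq]
    push_cast
    ring
  have h7 := congrArg Complex.re h6
  rw [add_re, re_ofReal_mul, re_ofReal_mul, pow_two, pow_two, mul_re, mul_re, h4, h5, ofReal_re] at h7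
  have := P.pos
  nlinarith [mul_nonneg P.p0 (sq_nonneg (pp q v).im), mul_nonneg P.q0 (sq_nonneg (qq p v).im)]

/-- the denominator -/
noncomputable def DD (p q : ℝ) (w : ℂ) : ℂ :=
  (((p + q) / 4 : ℝ) : ℂ) * (1 + w ^ 2) - (((p - q) / 2 : ℝ) : ℂ) * w

/-- the inverse of `w / D(w)` -/
noncomputable def Wf (p q : ℝ) (v : ℂ) : ℂ := (qq p v - pp q v) / (qq p v + pp q v)

theorem DD_Wf (P : Par p q) (hv : v.im ≤ 0) :
    DD p q (Wf p q v) = ((p + q : ℝ) : ℂ) / (qq p v + pp q v) ^ 2 := by
  have h0 := sum_ne P hv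
  have h6 : (p : ℂ) * pp q v ^ 2 + q * qq p v ^ 2 = p + q := by
    rw [pp_sq, qq_sq]
    ring
  unfold DD Wf
  rw [eq_div_iff (pow_ne_zero _ h0)]
  push_cast
  field_simp
  linear_combination 8 * h6

theorem DD_ne (P : Par p q) (hv : v.im ≤ 0) : DD p q (Wf p q v) ≠ 0 := by
  rw [DD_Wf P hv]
  refine div_ne_zero ?_ (pow_ne_zero _ (sum_ne P hv))
  exact_mod_cast P.pos.ne'

theorem Wf_eq (P : Par p q) (hv : v.im ≤ 0) : Wf p q v = v * DD p q (Wf p q v) := by
  have h0 := sum_ne P hv
  rw [DD_Wf P hv]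
  unfold Wf
  have h6 : qq p v ^ 2 - pp q v ^ 2 = (p + q) * v := by
    rw [pp_sq, qq_sq]
    ring
  rw [mul_div_assoc', eq_div_iff (pow_ne_zero _ h0), div_mul_eq_mul_div, div_eq_iff h0]
  push_cast
  linear_combination (qq p v + pp q v) * h6

theorem norm_sq_diff : ‖qq p v + pp q v‖ ^ 2 - ‖qq p v - pp q v‖ ^ 2 =
    4 * ((qq p v).re * (pp q v).re + (qq p v).im * (pp q v).im) := by
  rw [← Complex.normSq_eq_norm_sq, ← Complex.normSq_eq_norm_sq, Complex.normSq_apply,
    Complex.normSq_apply, add_re, add_im, sub_re, sub_im]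
  ring

theorem norm_Wf_le (P : Par p q) (hv : v.im ≤ 0) : ‖Wf p q v‖ ≤ 1 := by
  have h0 := norm_pos_iff.2 (sum_ne P hv)
  unfold Wf
  rw [norm_div, div_le_one h0]
  have h1 := norm_sq_diff (p := p) (q := q) (v := v)
  have h2 := (re_nonneg P hv).1
  exact le_of_sq_le_sq (by linarith) h0.le

theorem norm_Wf_lt (P : Par p q) (hv : v.im < 0) : ‖Wf p q v‖ < 1 := by
  have h0 := norm_pos_iff.2 (sum_ne P hv.le)
  unfold Wf
  rw [norm_div, div_lt_one h0]
  have h1 := norm_sq_diff (p := p) (q := q) (v := v)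
  have h2 := (re_nonneg P hv.le).2 hv
  exact lt_of_pow_lt_pow_left₀ 2 h0.le (by linarith)

theorem pp_cont (hq : 0 ≤ q) : ContinuousOn (pp q) {v : ℂ | v.im ≤ 0} := by
  refine sq_cont.comp (by fun_prop) fun v hv => ?_
  have hv' : v.im ≤ 0 := hv
  show 0 ≤ (1 - q * v : ℂ).im
  rw [pp_im]
  nlinarith [mul_nonneg hq (neg_nonneg.2 hv')]

theorem qq_cont (hp : 0 ≤ p) : ContinuousOn (qq p) {v : ℂ | v.im ≤ 0} := by
  refine continuousOn_const.mul (sq_cont.comp (by fun_prop) fun v hv => ?_)
  have hv' : v.im ≤ 0 := hv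
  show 0 ≤ (-1 - p * v : ℂ).im
  rw [qq_im]
  nlinarith [mul_nonneg hp (neg_nonneg.2 hv')]

theorem Wf_cont (P : Par p q) : ContinuousOn (Wf p q) {v : ℂ | v.im ≤ 0} :=
  ((qq_cont P.p0).sub (pp_cont P.q0)).div ((qq_cont P.p0).add (pp_cont P.q0)) fun _ hv => sum_ne P hv

theorem pp_diff (hq : 0 ≤ q) (hv : v.im < 0) : DifferentiableAt ℂ (pp q) v := by
  rcases hq.eq_or_lt with h | h
  · have e : pp q = fun _ => RR.sq 1 := by
      funext u
      unfold pp
      rw [← h]
      simp
    rw [e]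
    exact differentiableAt_const _
  · refine DifferentiableAt.comp v (sq_diff ?_) (by fun_prop)
    rw [pp_im]
    nlinarith [mul_pos h (neg_pos.2 hv)]

theorem qq_diff (hp : 0 ≤ p) (hv : v.im < 0) : DifferentiableAt ℂ (qq p) v := by
  rcases hp.eq_or_lt with h | h
  · have e : qq p = fun _ => -I * RR.sq (-1) := by
      funext u
      unfold qq
      rw [← h]
      simp
    rw [e]
    exact differentiableAt_const _
  · refine DifferentiableAt.const_mul (DifferentiableAt.comp v (sq_diff ?_) (by fun_prop)) _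
    rw [qq_im]
    nlinarith [mul_pos h (neg_pos.2 hv)]

theorem Wf_diff (P : Par p q) (hv : v.im < 0) : DifferentiableAt ℂ (Wf p q) v :=
  ((qq_diff P.p0 hv).sub (pp_diff P.q0 hv)).div ((qq_diff P.p0 hv).add (pp_diff P.q0 hv))
    (sum_ne P hv.le)

/-- `w / D(w)` -/
noncomputable def ff (p q : ℝ) (w : ℂ) : ℂ := w / DD p q w

theorem ff_Wf (P : Par p q) (hv : v.im ≤ 0) : ff p q (Wf p q v) = v := by
  unfold ff
  rw [div_eq_iff (DD_ne P hv)]
  exact Wf_eq P hv

theorem DD_re (w : ℂ) : (DD p q w).re = (p + q) / 4 * (1 + (w.re ^ 2 - w.im ^ 2)) - (p - q) / 2 * w.re := by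
  unfold DD
  rw [sub_re, re_ofReal_mul, re_ofReal_mul, add_re, one_re, pow_two, mul_re]
  ring

theorem DD_im (w : ℂ) : (DD p q w).im = (p + q) / 4 * (2 * w.re * w.im) - (p - q) / 2 * w.im := by
  unfold DD
  rw [sub_im, im_ofReal_mul, im_ofReal_mul, add_im, one_im, pow_two, mul_im]
  ring

theorem norm_sq_eq (w : ℂ) : ‖w‖ ^ 2 = w.re ^ 2 + w.im ^ 2 := by
  rw [← Complex.normSq_eq_norm_sq, Complex.normSq_apply]
  ring

/-- the denominator is not a real number `≤ 0` in the closed disc, except for zeros on the circle -/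
theorem DD_slit (P : Par p q) {w : ℂ} (hw : ‖w‖ ≤ 1) (h0 : DD p q w ≠ 0) : DD p q w ∈ slitPlane := by
  have hp := P.p0
  have hq := P.q0
  have hpos := P.pos
  have hn : w.re ^ 2 + w.im ^ 2 ≤ 1 := by
    rw [← norm_sq_eq]
    nlinarith [norm_nonneg w]
  rw [Complex.mem_slitPlane_iff]
  by_contra hcon
  push Not at hcon
  obtain ⟨h1, h2⟩ := hcon
  have h3 : (DD p q w).re ≠ 0 := fun h => h0 (Complex.ext h h2)
  have h4 : (DD p q w).re < 0 := lt_of_le_of_ne h1 h3
  rw [DD_re] at h4
  rw [DD_im] at h2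
  set x := w.re
  set y := w.im
  have h5 : y * ((p + q) / 2 * x - (p - q) / 2) = 0 := by linear_combination h2
  rcases mul_eq_zero.1 h5 with h | h
  · rw [h] at h4
    nlinarith [mul_nonneg hp (sq_nonneg (1 - x)), mul_nonneg hq (sq_nonneg (1 + x))]
  · have h6 : (p - q) / 2 = (p + q) / 2 * x := by linarith
    rw [h6] at h4
    nlinarith [mul_nonneg hpos.le (sub_nonneg.2 hn)]

theorem DD_ne' (P : Par p q) {w : ℂ} (hw : ‖w‖ < 1) : DD p q w ≠ 0 := by
  intro h0
  have hp := P.p0
  have hq := P.q0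
  have hpos := P.pos
  have hn : w.re ^ 2 + w.im ^ 2 < 1 := by
    rw [← norm_sq_eq]
    nlinarith [norm_nonneg w]
  have h1 := congrArg Complex.re h0
  have h2 := congrArg Complex.im h0
  rw [DD_re, zero_re] at h1
  rw [DD_im, zero_im] at h2
  set x := w.re
  set y := w.im
  have hx : x ^ 2 < 1 := by nlinarith [sq_nonneg y]
  have hx1 : 0 < 1 - x := by nlinarith
  have hx2 : 0 < 1 + x := by nlinarith
  have h5 : y * ((p + q) / 2 * x - (p - q) / 2) = 0 := by linear_combination h2
  rcases mul_eq_zero.1 h5 with h | h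
  · rw [h] at h1
    have e : p * (1 - x) ^ 2 + q * (1 + x) ^ 2 = 0 := by linear_combination 4 * h1
    have e1 : 0 ≤ p * (1 - x) ^ 2 := by positivity
    have e2 : 0 ≤ q * (1 + x) ^ 2 := by positivity
    have e3 : p * (1 - x) ^ 2 = 0 := by linarith
    have e4 : q * (1 + x) ^ 2 = 0 := by linarith
    have e5 : p = 0 := (mul_eq_zero.1 e3).resolve_right (by positivity)
    have e6 : q = 0 := (mul_eq_zero.1 e4).resolve_right (by positivity)
    linarith
  · have h6 : (p - q) / 2 = (p + q) / 2 * x := by linarith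
    rw [h6] at h1
    have e : (p + q) * (1 - (x ^ 2 + y ^ 2)) = 0 := by linear_combination 4 * h1
    rcases mul_eq_zero.1 e with h | h <;> linarith

theorem DD_deriv (w : ℂ) : HasDerivAt (DD p q)
    ((((p + q) / 4 : ℝ) : ℂ) * (2 * w) - (((p - q) / 2 : ℝ) : ℂ)) w := by
  have h1 : HasDerivAt (fun w : ℂ => 1 + w ^ 2) (2 * w) w := by
    have := ((hasDerivAt_id w).pow 2).const_add 1
    simpa using this
  have h2 := (h1.const_mul (((p + q) / 4 : ℝ) : ℂ)).sub
    ((hasDerivAt_id w).const_mul (((p - q) / 2 : ℝ) : ℂ))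
  have h3 : HasDerivAt (DD p q)
      ((((p + q) / 4 : ℝ) : ℂ) * (2 * w) - (((p - q) / 2 : ℝ) : ℂ) * 1) w := h2
  rwa [mul_one] at h3

theorem DD_cont : Continuous (DD p q) := by
  unfold DD
  fun_prop

theorem ff_diff (P : Par p q) {w : ℂ} (hw : ‖w‖ < 1) :
    HasDerivAt (ff p q) ((((p + q) / 4 : ℝ) : ℂ) * (1 - w ^ 2) / DD p q w ^ 2) w := by
  have h2 := (hasDerivAt_id w).div (DD_deriv (p := p) (q := q) w) (DD_ne' P hw)
  refine h2.congr_deriv ?_
  congr 1
  simp only [id]
  unfold DD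
  ring

theorem ff_deriv_ne (P : Par p q) {w : ℂ} (hw : ‖w‖ < 1) :
    (((p + q) / 4 : ℝ) : ℂ) * (1 - w ^ 2) / DD p q w ^ 2 ≠ 0 := by
  refine div_ne_zero (mul_ne_zero ?_ ?_) (pow_ne_zero _ (DD_ne' P hw))
  · have := P.pos
    exact_mod_cast (by positivity : (p + q) / 4 ≠ 0)
  · intro h
    have h1 : ‖w ^ 2‖ = 1 := by
      have h2 : w ^ 2 = 1 := by linear_combination -h
      rw [h2, norm_one]
    rw [norm_pow] at h1
    nlinarith [norm_nonneg w]

theorem ff_sub {w w' : ℂ} (h : DD p q w ≠ 0) (h' : DD p q w' ≠ 0) :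
    (ff p q w - ff p q w') * (DD p q w * DD p q w') =
      (((p + q) / 4 : ℝ) : ℂ) * ((w - w') * (1 - w * w')) := by
  unfold ff
  have e : (w / DD p q w - w' / DD p q w') * (DD p q w * DD p q w') =
      w * DD p q w' - w' * DD p q w := by
    field_simp
  rw [e]
  unfold DD
  ring

theorem ff_inj (P : Par p q) {w w' : ℂ} (hw : ‖w‖ < 1) (hw' : ‖w'‖ < 1) (h : ff p q w = ff p q w') :
    w = w' := by
  have h1 := ff_sub (DD_ne' P hw) (DD_ne' P hw')
  rw [h, sub_self, zero_mul] at h1
  have h0 : (((p + q) / 4 : ℝ) : ℂ) ≠ 0 := by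
    have := P.pos
    exact_mod_cast (by positivity : (p + q) / 4 ≠ 0)
  have h1' := (mul_eq_zero.1 h1.symm).resolve_left h0
  rcases mul_eq_zero.1 h1' with h2 | h2
  · exact sub_eq_zero.1 h2
  · exfalso
    have h3 : w * w' = 1 := by linear_combination -h2
    have h4 : ‖w‖ * ‖w'‖ = 1 := by rw [← norm_mul, h3, norm_one]
    nlinarith [norm_nonneg w, norm_nonneg w']

/-- the values on the disc are not on the rays -/
theorem ff_real (P : Par p q) {w : ℂ} (hw : ‖w‖ < 1) {r : ℝ} (h : ff p q w = r) :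
    -1 < p * r ∧ q * r < 1 := by
  have h0 := DD_ne' P hw
  have hp := P.p0
  have hq := P.q0
  have hpos := P.pos
  have h1 : w = r * DD p q w := by
    unfold ff at h
    rwa [div_eq_iff h0] at h
  have hre := congrArg Complex.re h1
  have him := congrArg Complex.im h1
  rw [re_ofReal_mul, DD_re] at hre
  rw [im_ofReal_mul, DD_im] at him
  have hn : w.re ^ 2 + w.im ^ 2 < 1 := by
    rw [← norm_sq_eq]
    nlinarith [norm_nonneg w]
  set x := w.re
  set y := w.im
  have hx : x ^ 2 < 1 := by nlinarith [sq_nonneg y]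
  have hx1 : 0 < 1 - x := by nlinarith
  have hx2 : 0 < 1 + x := by nlinarith
  by_cases hr : r = 0
  · rw [hr]
    constructor <;> norm_num
  have hyz : y * (1 - r * ((p + q) / 2 * x - (p - q) / 2)) = 0 := by linear_combination him
  rcases mul_eq_zero.1 hyz with hy | hx
  · rw [hy] at hre
    set D : ℝ := (p + q) / 4 * (1 + x ^ 2) - (p - q) / 2 * x with hD
    have hxD : x = r * D := by
      rw [hD]
      linear_combination hre
    have hDeq : 4 * D = p * (1 - x) ^ 2 + q * (1 + x) ^ 2 := by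
      rw [hD]
      ring
    have hD0 : 0 < D := by
      have e1 : 0 ≤ p * (1 - x) ^ 2 := by positivity
      have e2 : 0 ≤ q * (1 + x) ^ 2 := by positivity
      rcases hp.eq_or_lt with h' | h'
      · have : 0 < q := by linarith
        have : 0 < q * (1 + x) ^ 2 := by positivity
        linarith
      · have : 0 < p * (1 - x) ^ 2 := by positivity
        linarith
    constructor
    · have h5 : 0 < (1 + p * r) * D := by
        have e : (1 + p * r) * D = (p + q) / 4 * (1 + x) ^ 2 := by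
          have : (1 + p * r) * D = D + p * x := by rw [hxD]; ring
          rw [this]
          linear_combination hDeq / 4
        rw [e]
        positivity
      have := (pos_iff_pos_of_mul_pos h5).2 hD0
      linarith
    · have h5 : 0 < (1 - q * r) * D := by
        have e : (1 - q * r) * D = (p + q) / 4 * (1 - x) ^ 2 := by
          have : (1 - q * r) * D = D - q * x := by rw [hxD]; ring
          rw [this]
          linear_combination hDeq / 4
        rw [e]
        positivity
      have := (pos_iff_pos_of_mul_pos h5).2 hD0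
      linarith
  · exfalso
    have h2 : r * ((p + q) / 4 * (1 - (x ^ 2 + y ^ 2))) = 0 := by
      linear_combination -hre + x * hx
    rcases mul_eq_zero.1 h2 with h | h
    · exact hr h
    · rcases mul_eq_zero.1 h with h | h <;> linarith

end Pool.Agent.N686.RS
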